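import Pool.Agent.TH270.MS.Real

/-!
# Measurable, locally bounded functions on `[e, ∞)`
-/

set_option autoImplicit false

open MeasureTheory Filter Topology Set

namespace Pool.Agent.TH270.MS

/-- measurable and locally bounded -/
def BM (f : ℝ → ℝ) : Prop := AEStronglyMeasurable f (volume.restrict (Ioi (Real.exp 1))) ∧
  ∀ Y : ℝ, ∃ M : ℝ, ∀ y : ℝ, Real.exp 1 ≤ y → y ≤ Y → |f y| ≤ M

namespace BM

variable {f g : ℝ → ℝ}

theorem const (c : ℝ) : BM fun _ => c :=
  ⟨aestronglyMeasurable_const, fun _ => ⟨|c|, fun _ _ _ => le_rfl⟩⟩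

theorem add (hf : BM f) (hg : BM g) : BM fun y => f y + g y := by
  refine ⟨hf.1.add hg.1, fun Y => ?_⟩
  obtain ⟨M, hM⟩ := hf.2 Y
  obtain ⟨M', hM'⟩ := hg.2 Y
  exact ⟨M + M', fun y h1 h2 => (abs_add_le _ _).trans (add_le_add (hM y h1 h2) (hM' y h1 h2))⟩

theorem neg (hf : BM f) : BM fun y => -f y := by
  refine ⟨hf.1.neg, fun Y => ?_⟩
  obtain ⟨M, hM⟩ := hf.2 Y
  exact ⟨M, fun y h1 h2 => by rw [abs_neg]; exact hM y h1 h2⟩

theorem sub (hf : BM f) (hg : BM g) : BM fun y => f y - g y := by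
  have := hf.add hg.neg
  simpa only [sub_eq_add_neg] using this

theorem mul (hf : BM f) (hg : BM g) : BM fun y => f y * g y := by
  refine ⟨hf.1.mul hg.1, fun Y => ?_⟩
  obtain ⟨M, hM⟩ := hf.2 Y
  obtain ⟨M', hM'⟩ := hg.2 Y
  refine ⟨M * M', fun y h1 h2 => ?_⟩
  rw [abs_mul]
  exact mul_le_mul (hM y h1 h2) (hM' y h1 h2) (abs_nonneg _) ((abs_nonneg _).trans (hM y h1 h2))

theorem sq (hf : BM f) : BM fun y => f y ^ 2 := by
  have := hf.mul hf
  simpa only [← _root_.sq] using this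

theorem loglog : BM fun y => Real.log (Real.log y) := by
  refine ⟨(Real.measurable_log.comp Real.measurable_log).aestronglyMeasurable, fun Y => ?_⟩
  refine ⟨Real.log (Real.log Y), fun y h1 h2 => ?_⟩
  have h3 := one_le_log h1
  rw [abs_of_nonneg (Real.log_nonneg h3)]
  exact Real.log_le_log (by linarith) (Real.log_le_log ((Real.exp_pos 1).trans_le h1) h2)

theorem li (hf : BM f) : LI f := by
  intro Y hY
  obtain ⟨M, hM⟩ := hf.2 Y
  rw [intervalIntegrable_iff_integrableOn_Ioc_of_le hY]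
  have h1 : IntegrableOn f (Ioc (Real.exp 1) Y) := by
    have h2 : AEStronglyMeasurable f (volume.restrict (Ioc (Real.exp 1) Y)) :=
      hf.1.mono_measure (Measure.restrict_mono Ioc_subset_Ioi_self le_rfl)
    refine Integrable.mono' (g := fun _ => M) (integrableOn_const (by simp)) h2 ?_
    filter_upwards [ae_restrict_mem measurableSet_Ioc] with y hy
    rw [Real.norm_eq_abs]
    exact hM y hy.1.le hy.2
  exact h1

/-- closed under uniformly bounded measurable perturbations -/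
theorem of_close (hf : BM f) (hg : AEStronglyMeasurable g (volume.restrict (Ioi (Real.exp 1))))
    {M : ℝ} (h : ∀ y : ℝ, Real.exp 1 ≤ y → |f y - g y| ≤ M) : BM g := by
  refine ⟨hg, fun Y => ?_⟩
  obtain ⟨M', hM'⟩ := hf.2 Y
  refine ⟨M' + M, fun y h1 h2 => ?_⟩
  have h3 := h y h1
  have h4 := hM' y h1 h2
  have h5 : g y = f y - (f y - g y) := by ring
  rw [h5]
  exact (abs_sub _ _).trans (add_le_add h4 h3)

/-- step functions -/
theorem step (S : ℕ → Prop) [DecidablePred S] (c : ℕ → ℝ) (w : ℝ → ℝ) (hw : Measurable w)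
    [∀ x : ℝ, DecidablePred fun p : ℕ => S p ∧ w x < p] :
    BM fun x : ℝ => ∑ p ∈ (Finset.range (⌊x⌋₊ + 1)).filter (fun p => S p ∧ w x < p), c p := by
  classical
  set h : ℝ × ℕ → ℝ := fun q => ∑ p ∈ Finset.range (q.2 + 1),
    if S p ∧ w q.1 < p then c p else 0 with hh
  have h1 : Measurable h := by
    refine measurable_from_prod_countable_left fun n => ?_
    simp only [hh]
    refine Finset.measurable_fun_sum _ fun p _ => ?_
    refine Measurable.ite ?_ measurable_const measurable_const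
    by_cases hS : S p
    · have : {x : ℝ | S p ∧ w x < p} = {x | w x < (p : ℝ)} := by
        ext x
        simp [hS]
      rw [this]
      exact measurableSet_lt hw measurable_const
    · have : {x : ℝ | S p ∧ w x < p} = ∅ := by
        ext x
        simp [hS]
      rw [this]
      exact MeasurableSet.empty
  have h2 : (fun x : ℝ => ∑ p ∈ (Finset.range (⌊x⌋₊ + 1)).filter (fun p => S p ∧ w x < p), c p) =
      h ∘ fun x => (x, ⌊x⌋₊) := by
    funext x
    simp only [hh, Function.comp_apply]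
    rw [Finset.sum_filter]
  refine ⟨?_, fun Y => ⟨∑ p ∈ Finset.range (⌊Y⌋₊ + 1), |c p|, fun y _ h4 => ?_⟩⟩
  · rw [h2]
    exact (h1.comp (measurable_id.prodMk Nat.measurable_floor)).aestronglyMeasurable
  · refine (Finset.abs_sum_le_sum_abs _ _).trans ?_
    refine Finset.sum_le_sum_of_subset_of_nonneg ?_ fun _ _ _ => abs_nonneg _
    refine (Finset.filter_subset _ _).trans (Finset.range_mono ?_)
    exact Nat.add_le_add_right (Nat.floor_le_floor h4) 1

end BM

/-- square integrability is not changed by `O(y^(-1/12))` -/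
theorem sq_int_of_close {f g : ℝ → ℝ} {C : ℝ} (hf : AEStronglyMeasurable f
    (volume.restrict (Ioi (Real.exp 1))))
    (h : ∀ y : ℝ, Real.exp 1 ≤ y → |f y - g y| ≤ C * y ^ (-(1 / 12 : ℝ)))
    (hg : IntegrableOn (fun y => g y ^ 2 / y) (Ioi (Real.exp 1))) :
    IntegrableOn (fun y => f y ^ 2 / y) (Ioi (Real.exp 1)) := by
  have h1 : IntegrableOn (fun y : ℝ => y ^ (-(7 / 6 : ℝ))) (Ioi (Real.exp 1)) :=
    integrableOn_Ioi_rpow_of_lt (by norm_num) (Real.exp_pos 1)
  have h2 : Integrable (fun y : ℝ => 2 * (g y ^ 2 / y) + 2 * C ^ 2 * y ^ (-(7 / 6 : ℝ)))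
      (volume.restrict (Ioi (Real.exp 1))) := (hg.const_mul 2).add (h1.const_mul (2 * C ^ 2))
  refine Integrable.mono' h2 ?_ ?_
  · have h3 : AEStronglyMeasurable (fun y : ℝ => y⁻¹) (volume.restrict (Ioi (Real.exp 1))) :=
      measurable_inv.aestronglyMeasurable
    have := (hf.mul hf).mul h3
    refine this.congr (Eventually.of_forall fun y => ?_)
    simp only [Pi.mul_apply]
    ring
  · filter_upwards [ae_restrict_mem measurableSet_Ioi] with y hy
    have hy' : Real.exp 1 < y := hy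
    have hy0 : 0 < y := (Real.exp_pos 1).trans hy'
    have h3 := h y hy'.le
    rw [Real.norm_of_nonneg (by positivity)]
    have h4 : (f y - g y) ^ 2 ≤ C ^ 2 * y ^ (-(1 / 6 : ℝ)) := by
      have h5 : (f y - g y) ^ 2 = |f y - g y| ^ 2 := (sq_abs _).symm
      rw [h5]
      refine (pow_le_pow_left₀ (abs_nonneg _) h3 2).trans (le_of_eq ?_)
      rw [mul_pow, ← Real.rpow_natCast (y ^ (-(1 / 12 : ℝ))), ← Real.rpow_mul hy0.le]
      congr 2
      norm_num
    have h5 : y ^ (-(1 / 6 : ℝ)) / y = y ^ (-(7 / 6 : ℝ)) := by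
      rw [div_eq_mul_inv, ← Real.rpow_neg_one y, ← Real.rpow_add hy0]
      congr 1
      norm_num
    have h6 : f y ^ 2 ≤ 2 * g y ^ 2 + 2 * (f y - g y) ^ 2 := by
      nlinarith [sq_nonneg (f y - 2 * g y)]
    calc f y ^ 2 / y ≤ (2 * g y ^ 2 + 2 * (C ^ 2 * y ^ (-(1 / 6 : ℝ)))) / y := by
          gcongr
          linarith
      _ = 2 * (g y ^ 2 / y) + 2 * C ^ 2 * (y ^ (-(1 / 6 : ℝ)) / y) := by ring
      _ = _ := by rw [h5]

/-- bounded means -/
theorem bmean_of {f g : ℝ → ℝ} (hf : LI f) (hg : LI g) {M : ℝ}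
    (h : ∀ y : ℝ, Real.exp 1 ≤ y → |f y - g y| ≤ M)
    (hb : ∃ B : ℝ, ∀ᶠ Y : ℝ in atTop, ∫ y in Real.exp 1..Y, |f y| / y ≤ B * Real.log Y) :
    ∃ B : ℝ, ∀ᶠ Y : ℝ in atTop, ∫ y in Real.exp 1..Y, |g y| / y ≤ B * Real.log Y := by
  obtain ⟨B, hB⟩ := hb
  have hM : 0 ≤ M := (abs_nonneg _).trans (h _ le_rfl)
  refine ⟨B + M, ?_⟩
  filter_upwards [hB, eventually_ge_atTop (Real.exp 1)] with Y h1 hY
  have h2 : ∫ y in Real.exp 1..Y, |g y| / y ≤
      ∫ y in Real.exp 1..Y, (|f y| / y + M * ((fun _ => (1 : ℝ)) y / y)) := by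
    refine intervalIntegral.integral_mono_on hY (hg.abs.div Y hY)
      ((hf.abs.div Y hY).add (((LI.const 1).div Y hY).const_mul M)) fun y hy => ?_
    have hy0 : 0 < y := (Real.exp_pos 1).trans_le hy.1
    have h3 : |g y| ≤ |f y| + M := by
      have h4 : g y = f y - (f y - g y) := by ring
      have h5 := h y hy.1
      calc |g y| = |f y - (f y - g y)| := by rw [← h4]
        _ ≤ |f y| + |f y - g y| := abs_sub _ _
        _ ≤ _ := by linarith
    calc |g y| / y ≤ (|f y| + M) / y := by gcongr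
      _ = _ := by ring
  rw [intervalIntegral.integral_add (hf.abs.div Y hY) (((LI.const 1).div Y hY).const_mul M),
    intervalIntegral.integral_const_mul, int_inv hY] at h2
  nlinarith [one_le_log hY]

end Pool.Agent.TH270.MS
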