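import Pool.Agent.TH270.MS.Dir
import Pool.Agent.W263.BSD.Lap

/-!
# The converse: small mean deviation determines the order, the leading coefficient and the zeros
-/

set_option autoImplicit false

open MeasureTheory Filter Topology Set Complex
open Pool.Agent.TH942.LS (Dat)
open Pool.Agent.TH942.SL
open Pool.Agent.W263.BSD (LInt lap lapC lapC_ofReal lapC_differentiableAt)

namespace Pool.Agent.TH270.MS

variable {lam c : ℕ → ℝ} {δ σ : ℝ}

/-- the deviation of the partial sums from `r H(T) + c₀` -/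
noncomputable def Er (lam c : ℕ → ℝ) (r c₀ : ℝ) (u : ℝ) : ℝ :=
  Sh lam c u - r * Sh lamh ch u - (Ioi (0 : ℝ)).indicator (fun _ => c₀) u

lemma er_meas (D : Dat lam c δ σ) (r c₀ : ℝ) : Measurable (Er lam c r c₀) :=
  ((sh_meas D).sub ((sh_meas (dat_h (σ := 1) one_pos)).const_mul r)).sub
    (measurable_const.indicator measurableSet_Ioi)

lemma er_zero (D : Dat lam c δ σ) (r c₀ : ℝ) {u : ℝ} (hu : u ≤ 0) : Er lam c r c₀ u = 0 := by
  unfold Er
  rw [sh_zero D (by linarith [D.δ0]), sh_zero (dat_h (σ := 1) one_pos) (by linarith),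
    indicator_of_notMem (by simpa using hu)]
  ring

lemma er_le (D : Dat lam c δ σ) (r c₀ : ℝ) :
    ∃ C : ℝ, 0 ≤ C ∧ ∀ u : ℝ, |Er lam c r c₀ u| ≤ C * Real.exp (σ * u) := by
  set S₀ : ℝ := ∑' n, |c n| * Real.exp (-(σ * lam n)) with hS₀
  set S₁ : ℝ := ∑' n, |ch n| * Real.exp (-(σ * lamh n)) with hS₁
  have h0 : 0 ≤ S₀ := tsum_nonneg fun n => by positivity
  have h1 : 0 ≤ S₁ := tsum_nonneg fun n => by positivity
  refine ⟨S₀ + |r| * S₁ + |c₀|, by positivity, fun u => ?_⟩
  rcases le_or_gt u 0 with hu | hu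
  · rw [er_zero D r c₀ hu, abs_zero]
    positivity
  · have e1 := sh_le D u
    have e2 := sh_le (dat_h D.σ0) u
    rw [← hS₀] at e1
    rw [← hS₁] at e2
    have e3 : 1 ≤ Real.exp (σ * u) := Real.one_le_exp (mul_nonneg D.σ0.le hu.le)
    unfold Er
    rw [indicator_of_mem (show u ∈ Ioi (0 : ℝ) from hu)]
    calc |Sh lam c u - r * Sh lamh ch u - c₀| ≤ |Sh lam c u| + |r * Sh lamh ch u| + |c₀| := by
          refine (abs_sub _ _).trans ?_
          gcongr
          exact abs_sub _ _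
      _ ≤ Real.exp (σ * u) * S₀ + |r| * (Real.exp (σ * u) * S₁) + |c₀| * Real.exp (σ * u) := by
          rw [abs_mul]
          have := mul_le_mul_of_nonneg_left e2 (abs_nonneg r)
          have := mul_le_mul_of_nonneg_left e3 (abs_nonneg c₀)
          linarith
      _ = _ := by ring

lemma er_int (D : Dat lam c δ σ) (r c₀ : ℝ) {x : ℝ} (hx : σ < x) : LInt (Er lam c r c₀) x := by
  obtain ⟨C, hC, hb⟩ := er_le D r c₀
  have h1 : IntegrableOn (fun u : ℝ => C * Real.exp ((σ - x) * u)) (Ioi 0) :=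
    (integrableOn_exp_mul_Ioi (by linarith) 0).const_mul C
  refine Integrable.mono' h1 ((er_meas D r c₀).mul (by fun_prop)).aestronglyMeasurable
    (Eventually.of_forall fun u => ?_)
  rw [norm_mul, Real.norm_eq_abs, Real.norm_of_nonneg (Real.exp_pos _).le]
  calc |Er lam c r c₀ u| * Real.exp (-(x * u)) ≤ C * Real.exp (σ * u) * Real.exp (-(x * u)) :=
        mul_le_mul_of_nonneg_right (hb u) (Real.exp_pos _).le
    _ = _ := by
      rw [mul_assoc, ← Real.exp_add]
      ring_nf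

lemma sh_int (D : Dat lam c δ σ) {s : ℂ} (hs : σ < s.re) :
    Integrable fun T : ℝ => (Sh lam c T : ℂ) * exp (-(s * T)) := by
  have hs0 : 0 < s.re := D.σ0.trans hs
  set S₀ : ℝ := ∑' n, |c n| * Real.exp (-(σ * lam n)) with hS₀
  have h1 : Integrable ((Ici (0 : ℝ)).indicator fun u : ℝ => S₀ * Real.exp ((σ - s.re) * u)) := by
    rw [integrable_indicator_iff measurableSet_Ici, integrableOn_Ici_iff_integrableOn_Ioi]
    exact (integrableOn_exp_mul_Ioi (by linarith) 0).const_mul S₀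
  refine h1.mono' ((Complex.measurable_ofReal.comp (sh_meas D)).mul
    (by fun_prop)).aestronglyMeasurable (Eventually.of_forall fun u => ?_)
  rw [norm_mul, norm_exp_neg, Complex.norm_real, Real.norm_eq_abs]
  rcases lt_or_ge u 0 with hu | hu
  · rw [sh_zero D (by linarith [D.δ0]), abs_zero, zero_mul,
      indicator_of_notMem (by simpa using hu)]
  · rw [indicator_of_mem (show u ∈ Ici (0 : ℝ) from hu)]
    calc _ ≤ (Real.exp (σ * u) * S₀) * Real.exp (-(s.re * u)) :=
          mul_le_mul_of_nonneg_right (sh_le D u) (Real.exp_pos _).le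
      _ = S₀ * (Real.exp (σ * u) * Real.exp (-(s.re * u))) := by ring
      _ = _ := by
        rw [← Real.exp_add]
        ring_nf

/-- the Laplace transform of the deviation -/
theorem er_lap (D : Dat lam c δ σ) (r c₀ : ℝ) {s : ℂ} (hs : σ < s.re) :
    ∫ u : ℝ, (Er lam c r c₀ u : ℂ) * exp (-(s * u)) =
      (DD lam c s + r * log (1 - exp (-s)) - c₀) / s := by
  have hs0 : 0 < s.re := D.σ0.trans hs
  have i1 := sh_int D hs
  have i2 := sh_int (dat_h (σ := s.re / 2) (by linarith)) (s := s) (by linarith)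
  have i3 := integrable_step hs0 0
  have e0 : ∀ᵐ u : ℝ, (Er lam c r c₀ u : ℂ) * exp (-(s * u)) =
      (Sh lam c u : ℂ) * exp (-(s * u)) - r * ((Sh lamh ch u : ℂ) * exp (-(s * u))) -
        c₀ * (Ici (0 : ℝ)).indicator (fun T : ℝ => exp (-(s * T))) u := by
    have h0 : ∀ᵐ u : ℝ, u ≠ 0 := by
      rw [ae_iff]
      simp
    filter_upwards [h0] with u hu
    unfold Er
    by_cases h : 0 < u
    · rw [indicator_of_mem (show u ∈ Ioi (0 : ℝ) from h),
        indicator_of_mem (show u ∈ Ici (0 : ℝ) from h.le)]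
      push_cast
      ring
    · have h' : u < 0 := lt_of_le_of_ne (not_lt.1 h) hu
      rw [indicator_of_notMem (show u ∉ Ioi (0 : ℝ) from h),
        indicator_of_notMem (show u ∉ Ici (0 : ℝ) from not_le.2 h')]
      push_cast
      ring
  have i2' : Integrable fun u : ℝ => (r : ℂ) * ((Sh lamh ch u : ℂ) * exp (-(s * u))) :=
    i2.const_mul _
  have i3' : Integrable fun u : ℝ => (c₀ : ℂ) *
      (Ici (0 : ℝ)).indicator (fun T : ℝ => exp (-(s * T))) u := i3.const_mul _
  have i12 : Integrable fun u : ℝ => (Sh lam c u : ℂ) * exp (-(s * u)) -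
      r * ((Sh lamh ch u : ℂ) * exp (-(s * u))) := i1.sub i2'
  rw [integral_congr_ae e0, integral_sub i12 i3',
    integral_sub i1 i2', integral_const_mul, integral_const_mul, sh_lap D hs,
    sh_lap (dat_h (σ := s.re / 2) (by linarith)) (s := s) (by linarith), integral_step hs0,
    dd_h hs0]
  simp only [Complex.ofReal_zero, mul_zero, neg_zero, Complex.exp_zero]
  ring

lemma er_lapC (D : Dat lam c δ σ) (r c₀ : ℝ) (s : ℂ) :
    lapC (Er lam c r c₀) s = ∫ u : ℝ, (Er lam c r c₀ u : ℂ) * exp (-(s * u)) := by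
  unfold lapC
  refine setIntegral_eq_integral_of_forall_compl_eq_zero fun u hu => ?_
  rw [er_zero D r c₀ (by simpa using hu)]
  simp

lemma log_one_sub {x : ℝ} (hx : 0 < x) : |Real.log (1 - Real.exp (-x)) - Real.log x| ≤ x := by
  have h1 : Real.exp (-x) < 1 := by rw [Real.exp_lt_one_iff]; linarith
  have h2 : 0 < 1 - Real.exp (-x) := by linarith
  have h3 : 1 - x ≤ Real.exp (-x) := by
    have := Real.add_one_le_exp (-x)
    linarith
  have h4 : x / (1 + x) ≤ 1 - Real.exp (-x) := by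
    have h5 : 1 + x ≤ Real.exp x := by
      have := Real.add_one_le_exp x
      linarith
    have h6 : Real.exp (-x) ≤ 1 / (1 + x) := by
      rw [Real.exp_neg, ← one_div]
      exact one_div_le_one_div_of_le (by linarith) h5
    have h7 : x / (1 + x) = 1 - 1 / (1 + x) := by
      field_simp
      ring
    linarith
  have h5 : Real.log (1 - Real.exp (-x)) ≤ Real.log x := Real.log_le_log h2 (by linarith)
  have h6 := Real.log_le_log (by positivity) h4
  rw [Real.log_div hx.ne' (by positivity)] at h6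
  have h7 : Real.log (1 + x) ≤ x := by
    have := Real.log_le_sub_one_of_pos (x := 1 + x) (by linarith)
    linarith
  rw [abs_le]
  constructor <;> linarith

lemma slit_one_sub {s : ℂ} (hs : 0 < s.re) : 1 - exp (-s) ∈ Complex.slitPlane := by
  left
  have h1 := (Complex.re_le_norm (exp (-s))).trans_lt (norm_exp_lt hs)
  rw [Complex.sub_re, Complex.one_re]
  linarith

/-- **The converse.** -/
theorem conv {G₀ g : ℂ → ℂ} {k p : ℕ} (D : Dat lam c δ σ)
    (hG : ∀ s : ℂ, 0 < s.re → DifferentiableAt ℂ G₀ s)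
    (hexp : ∀ s : ℂ, σ < s.re → s ^ k * exp (-DD lam c s) = G₀ s)
    (hg : AnalyticAt ℂ g 0) (hg0 : g 0 ≠ 0) (near : ∀ᶠ s in 𝓝 (0 : ℂ), G₀ s = s ^ p * g s)
    {r c₀ : ℝ} (hint : ∀ x : ℝ, 0 < x → LInt (Er lam c r c₀) x) :
    (∀ s : ℂ, 0 < s.re → G₀ s ≠ 0) ∧
    (∀ B : ℝ, (∀ᶠ x in 𝓝[>] (0 : ℝ), |x * lap (Er lam c r c₀) x| ≤ B) → (p : ℝ) = k + r) ∧
    (Tendsto (fun x : ℝ => x * lap (Er lam c r c₀) x) (𝓝[>] 0) (𝓝 0) →
      (p : ℝ) = k + r ∧ g 0 = Real.exp (-c₀)) := by
  have hσ := D.σ0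
  set E : ℂ → ℂ := lapC (Er lam c r c₀) with hE
  have hEd : ∀ s : ℂ, 0 < s.re → DifferentiableAt ℂ E s := fun s hs =>
    lapC_differentiableAt (er_meas D r c₀) (fun w hw => hint w hw) hs
  set Q : ℂ → ℂ := fun s => s ^ k * exp (-(s * E s) - c₀ + r * log (1 - exp (-s))) with hQ
  have hQd : ∀ s : ℂ, 0 < s.re → DifferentiableAt ℂ Q s := by
    intro s hs
    have h1 : DifferentiableAt ℂ (fun s : ℂ => log (1 - exp (-s))) s :=
      DifferentiableAt.clog (by fun_prop) (slit_one_sub hs)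
    exact (differentiableAt_id.pow k).mul
      ((((differentiableAt_id.mul (hEd s hs)).neg.sub_const _).add (h1.const_mul _)).cexp)
  have hU : IsOpen {s : ℂ | 0 < s.re} := isOpen_lt continuous_const Complex.continuous_re
  have hUc : Convex ℝ {s : ℂ | 0 < s.re} := convex_halfSpace_re_gt 0
  have a1 : AnalyticOnNhd ℂ G₀ {s : ℂ | 0 < s.re} :=
    DifferentiableOn.analyticOnNhd (fun z hz => (hG z hz).differentiableWithinAt) hU
  have a2 : AnalyticOnNhd ℂ Q {s : ℂ | 0 < s.re} :=
    DifferentiableOn.analyticOnNhd (fun z hz => (hQd z hz).differentiableWithinAt) hU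
  have hfar : ∀ s : ℂ, σ < s.re → G₀ s = Q s := by
    intro s hs
    have hs0 : 0 < s.re := hσ.trans hs
    have hs1 : s ≠ 0 := by rintro rfl; simp at hs0
    rw [← hexp s hs, hQ]
    simp only
    congr 2
    rw [hE, er_lapC D, er_lap D r c₀ hs]
    field_simp
    ring
  have hz : ((σ + 1 : ℝ) : ℂ) ∈ {s : ℂ | 0 < s.re} := by
    show (0 : ℝ) < (((σ + 1 : ℝ) : ℂ)).re
    rw [Complex.ofReal_re]
    linarith
  have hEq := a1.eqOn_of_preconnected_of_eventuallyEq a2 hUc.isPreconnected hz (by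
    have ho : IsOpen {s : ℂ | σ < s.re} := isOpen_lt continuous_const Complex.continuous_re
    filter_upwards [ho.mem_nhds (show σ < (((σ + 1 : ℝ) : ℂ)).re by
      rw [Complex.ofReal_re]; linarith)] with s hs
    exact hfar s hs)
  have hne : ∀ s : ℂ, 0 < s.re → G₀ s ≠ 0 := by
    intro s hs
    rw [hEq hs, hQ]
    have hs1 : s ≠ 0 := by rintro rfl; simp at hs
    exact mul_ne_zero (pow_ne_zero _ hs1) (Complex.exp_ne_zero _)
  -- on the real axis
  set q : ℝ → ℝ := fun x => -(x * lap (Er lam c r c₀) x) - c₀ +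
    r * (Real.log (1 - Real.exp (-x)) - Real.log x) with hq
  have hreal : ∀ᶠ x : ℝ in 𝓝[>] (0 : ℝ), g (x : ℂ) = ((Real.exp (q x + (k + r - p) * Real.log x) : ℝ) : ℂ) := by
    have h1 : ∀ᶠ x : ℝ in 𝓝[>] (0 : ℝ), G₀ (x : ℂ) = (x : ℂ) ^ p * g x := by
      have : Tendsto (fun x : ℝ => (x : ℂ)) (𝓝[>] 0) (𝓝 0) := by
        have h2 : Tendsto (fun x : ℝ => (x : ℂ)) (𝓝 0) (𝓝 ((0 : ℝ) : ℂ)) :=
          Complex.continuous_ofReal.continuousAt
        rw [Complex.ofReal_zero] at h2
        exact h2.mono_left nhdsWithin_le_nhds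
      exact this.eventually near
    filter_upwards [h1, self_mem_nhdsWithin] with x h2 hx
    have hx0 : 0 < x := hx
    have hxc : (x : ℂ) ≠ 0 := by exact_mod_cast hx0.ne'
    have h3 : (0 : ℝ) < ((x : ℂ)).re := by rwa [Complex.ofReal_re]
    have h5 : 0 < 1 - Real.exp (-x) := by
      have : Real.exp (-x) < 1 := by rw [Real.exp_lt_one_iff]; linarith
      linarith
    have h4 : G₀ (x : ℂ) = ((x ^ k * Real.exp (-(x * lap (Er lam c r c₀) x) - c₀ +
        r * Real.log (1 - Real.exp (-x))) : ℝ) : ℂ) := by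
      rw [hEq h3, hQ, hE]
      simp only
      rw [lapC_ofReal]
      push_cast
      rw [Complex.ofReal_log h5.le]
      push_cast
      rfl
    have h6 : (x : ℂ) ^ p * g x = (x : ℂ) ^ p *
        ((Real.exp (q x + (k + r - p) * Real.log x) : ℝ) : ℂ) := by
      rw [← h2, h4, ← Complex.ofReal_pow, ← Complex.ofReal_mul]
      congr 1
      have e1 : x ^ k = Real.exp (k * Real.log x) := by
        rw [Real.exp_nat_mul, Real.exp_log hx0]
      have e2 : x ^ p = Real.exp (p * Real.log x) := by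
        rw [Real.exp_nat_mul, Real.exp_log hx0]
      rw [e1, e2, ← Real.exp_add, ← Real.exp_add]
      congr 1
      rw [hq]
      ring
    exact mul_left_cancel₀ (pow_ne_zero _ hxc) h6
  have hgc : Tendsto (fun x : ℝ => g x) (𝓝[>] 0) (𝓝 (g 0)) := by
    have h2 : Tendsto (fun x : ℝ => (x : ℂ)) (𝓝[>] 0) (𝓝 0) := by
      have h2 : Tendsto (fun x : ℝ => (x : ℂ)) (𝓝 0) (𝓝 ((0 : ℝ) : ℂ)) :=
        Complex.continuous_ofReal.continuousAt
      rw [Complex.ofReal_zero] at h2
      exact h2.mono_left nhdsWithin_le_nhds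
    exact hg.continuousAt.tendsto.comp h2
  have hgn : Tendsto (fun x : ℝ => q x + (k + r - p) * Real.log x) (𝓝[>] 0)
      (𝓝 (Real.log ‖g 0‖)) := by
    have h1 := (Real.continuousAt_log (norm_ne_zero_iff.2 hg0)).tendsto.comp hgc.norm
    refine h1.congr' ?_
    filter_upwards [hreal] with x hx
    simp only [Function.comp_apply]
    rw [hx, Complex.norm_real, Real.norm_of_nonneg (Real.exp_pos _).le, Real.log_exp]
  have hlog : ∀ᶠ x in 𝓝[>] (0 : ℝ), |Real.log (1 - Real.exp (-x)) - Real.log x| ≤ x := by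
    filter_upwards [self_mem_nhdsWithin] with x hx
    exact log_one_sub hx
  have hB : ∀ B : ℝ, (∀ᶠ x in 𝓝[>] (0 : ℝ), |x * lap (Er lam c r c₀) x| ≤ B) →
      (p : ℝ) = k + r := by
    intro B hB
    have hx1 : ∀ᶠ x in 𝓝[>] (0 : ℝ), x < 1 := by
      filter_upwards [nhdsWithin_le_nhds (gt_mem_nhds (one_pos : (0 : ℝ) < 1))] with x hx
      exact hx
    have h1 : ∀ᶠ x in 𝓝[>] (0 : ℝ), |(k + r - p) * Real.log x| ≤
        (|Real.log ‖g 0‖| + 1) + (B + |c₀| + |r|) := by
      have h2 : ∀ᶠ x in 𝓝[>] (0 : ℝ), |(q x + (k + r - p) * Real.log x) - Real.log ‖g 0‖| < 1 := by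
        have := (Metric.tendsto_nhds.1 hgn) 1 one_pos
        simpa [Real.dist_eq] using this
      filter_upwards [h2, hB, hlog, hx1] with x h2 h3 h4 h5
      have h6 : |q x| ≤ B + |c₀| + |r| := by
        have e1 : |r * (Real.log (1 - Real.exp (-x)) - Real.log x)| ≤ |r| := by
          rw [abs_mul]
          calc |r| * _ ≤ |r| * 1 := mul_le_mul_of_nonneg_left (h4.trans h5.le) (abs_nonneg r)
            _ = _ := mul_one _
        have e2 := abs_le.1 e1
        have e3 := abs_le.1 h3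
        have e4 := abs_le.1 (le_refl |c₀|)
        rw [hq, abs_le]
        constructor <;> simp only <;> linarith
      have e1 := abs_lt.1 h2
      have e2 := abs_le.1 h6
      have e3 := abs_le.1 (le_refl |Real.log ‖g 0‖|)
      rw [abs_le]
      constructor <;> linarith
    by_contra hcon
    have h3 : (k + r - p : ℝ) ≠ 0 := fun h => hcon (by linarith)
    have h4 : Tendsto (fun x : ℝ => |(k + r - p) * Real.log x|) (𝓝[>] 0) atTop := by
      simp only [abs_mul]
      refine Tendsto.const_mul_atTop (abs_pos.2 h3) ?_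
      exact tendsto_abs_atBot_atTop.comp Real.tendsto_log_nhdsGT_zero
    have h5 := h4.eventually (eventually_gt_atTop ((|Real.log ‖g 0‖| + 1) + (B + |c₀| + |r|)))
    obtain ⟨x, h6, h7⟩ := (h1.and h5).exists
    linarith
  refine ⟨hne, hB, fun hlim => ?_⟩
  have hp : (p : ℝ) = k + r := by
    refine hB 1 ?_
    have := (Metric.tendsto_nhds.1 hlim) 1 one_pos
    filter_upwards [this] with x hx
    rw [Real.dist_eq, sub_zero] at hx
    exact hx.le
  refine ⟨hp, ?_⟩
  have h0 : Tendsto (fun x : ℝ => Real.log (1 - Real.exp (-x)) - Real.log x) (𝓝[>] 0) (𝓝 0) := by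
    refine squeeze_zero_norm' (a := fun x => x) ?_ ?_
    · filter_upwards [hlog] with x hx
      exact hx
    · exact tendsto_id.mono_left nhdsWithin_le_nhds
  have h1 : Tendsto q (𝓝[>] 0) (𝓝 (-c₀)) := by
    have := ((hlim.neg).sub_const c₀).add (h0.const_mul r)
    simpa using this
  have h2 : Tendsto (fun x : ℝ => ((Real.exp (q x) : ℝ) : ℂ)) (𝓝[>] 0)
      (𝓝 ((Real.exp (-c₀) : ℝ) : ℂ)) :=
    (Complex.continuous_ofReal.tendsto _).comp ((Real.continuous_exp.tendsto _).comp h1)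
  refine tendsto_nhds_unique hgc (h2.congr' ?_)
  filter_upwards [hreal] with x hx
  rw [hx, hp]
  congr 2
  ring

end Pool.Agent.TH270.MS
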