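import Pool.Agent.TH270.MS.Main
import Pool.Agent.TH270.RS.Sys

/-!
# Sharp partial Euler products of a system of primes in mean square
-/

set_option autoImplicit false

open MeasureTheory Filter Topology Set Complex
open scoped ENNReal
open Pool.Agent.TH942.LS (Dat)
open Pool.Agent.TH942.SL
open Pool.Agent.TH942.ES
open Pool.Agent.TH270.RS (cS' dat' DD_neg)

namespace Pool.Agent.TH270.MS

/-! ### change of variables -/

/-- `X = e^T` -/
theorem cov_int (φ : ℝ → ℝ) :
    IntegrableOn (fun X : ℝ => φ (Real.log X) / X) (Ioi (Real.exp 1)) ↔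
      IntegrableOn φ (Ioi 1) := by
  have himg : Real.exp '' Ioi 1 = Ioi (Real.exp 1) := by
    ext x
    constructor
    · rintro ⟨t, ht, rfl⟩
      exact Real.exp_lt_exp.2 ht
    · intro hx
      have h0 : 0 < x := (Real.exp_pos 1).trans hx
      refine ⟨Real.log x, ?_, Real.exp_log h0⟩
      rw [← Real.log_exp 1]
      exact Real.log_lt_log (Real.exp_pos 1) hx
  rw [← himg, integrableOn_image_iff_integrableOn_abs_deriv_smul measurableSet_Ioi
    (fun x _ => (Real.hasDerivAt_exp x).hasDerivWithinAt) Real.exp_injective.injOn]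
  refine integrableOn_congr_fun (fun t _ => ?_) measurableSet_Ioi
  have h0 := Real.exp_pos t
  simp only [Real.log_exp, smul_eq_mul, abs_of_pos h0]
  field_simp

theorem cov_ii (φ : ℝ → ℝ) {T : ℝ} (hT : 1 ≤ T) :
    ∫ X in Real.exp 1..Real.exp T, φ (Real.log X) / X = ∫ t in (1 : ℝ)..T, φ t := by
  have hle : Real.exp 1 ≤ Real.exp T := Real.exp_le_exp.2 hT
  have himg : Real.exp '' Ioc 1 T = Ioc (Real.exp 1) (Real.exp T) := by
    ext x
    constructor
    · rintro ⟨t, ht, rfl⟩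
      exact ⟨Real.exp_lt_exp.2 ht.1, Real.exp_le_exp.2 ht.2⟩
    · intro hx
      have h0 : 0 < x := (Real.exp_pos 1).trans hx.1
      refine ⟨Real.log x, ⟨?_, ?_⟩, Real.exp_log h0⟩
      · rw [← Real.log_exp 1]
        exact Real.log_lt_log (Real.exp_pos 1) hx.1
      · rw [← Real.log_exp T]
        exact Real.log_le_log h0 hx.2
  rw [intervalIntegral.integral_of_le hle, intervalIntegral.integral_of_le hT, ← himg,
    integral_image_eq_integral_abs_deriv_smul measurableSet_Ioc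
    (fun x _ => (Real.hasDerivAt_exp x).hasDerivWithinAt) Real.exp_injective.injOn]
  refine setIntegral_congr_fun measurableSet_Ioc fun t _ => ?_
  have h0 := Real.exp_pos t
  simp only [Real.log_exp, smul_eq_mul, abs_of_pos h0]
  field_simp

/-! ### the sharp products -/

variable {X : Type} {d : ℕ} {N : X → ℕ} {α : X → Fin d → ℂ} {Ψ G₀ g : ℂ → ℂ} {e : X × ℕ → ℕ}
  {m k κ : ℕ} {η C : ℝ}

/-- the logarithm of the partial Euler product over the prime powers `≤ Y` -/
noncomputable def Pl (N : X → ℕ) (α : X → Fin d → ℂ) (Y : ℝ) : ℝ :=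
  ∑ᶠ (p : X × ℕ) (_ : (N p.1 : ℝ) ^ (p.2 + 1) ≤ Y), cP N α p

theorem sh_eq (E : Sys N α) (he : Function.Injective e) (T : ℝ) :
    Sh (lamS N e) (cS' N α e) T = -Pl N α (Real.exp T) := by
  have hfin := E.finS (Real.exp T)
  have e4 : Pl N α (Real.exp T) = ∑ p ∈ hfin.toFinset, cP N α p :=
    finsum_mem_eq_finite_toFinset_sum (fun p : X × ℕ => cP N α p) hfin
  have e1 : Sh (lamS N e) (cS' N α e) T =
      -∑' n, cS N α e n * (if lamS N e n ≤ T then 1 else 0) := by
    unfold Sh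
    rw [← tsum_neg]
    refine tsum_congr fun n => ?_
    unfold cS'
    split_ifs <;> ring
  have e2 : ∑' n, cS N α e n * (if lamS N e n ≤ T then (1 : ℝ) else 0) =
      ∑' p, cP N α p * (if lamP N p ≤ T then (1 : ℝ) else 0) :=
    tsum_cS he (fun c l => c * (if l ≤ T then (1 : ℝ) else 0)) (fun l => by simp)
  have hmem : ∀ p : X × ℕ, p ∈ hfin.toFinset ↔ lamP N p ≤ T := by
    intro p
    rw [Set.Finite.mem_toFinset, Set.mem_ofPred_eq]
    have hN : (0 : ℝ) < (N p.1 : ℝ) ^ (p.2 + 1) := by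
      have := E.Npos p.1
      positivity
    rw [← Real.log_le_log_iff hN (Real.exp_pos T), Real.log_pow, Real.log_exp]
    unfold lamP
    push_cast
    rfl
  rw [e1, e2, e4, tsum_eq_sum (s := hfin.toFinset)]
  · congr 1
    refine Finset.sum_congr rfl fun p hp => ?_
    rw [if_pos ((hmem p).1 hp), mul_one]
  · intro p hp
    rw [if_neg (fun h => hp ((hmem p).2 h)), mul_zero]

/-- the data: `G₀(s) = s^k Ψ(s)` continues `s^k` times the Euler product across the central line, with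
polynomial growth -/
structure Mc (N : X → ℕ) (α : X → Fin d → ℂ) (Ψ G₀ : ℂ → ℂ) (k κ : ℕ) (η C : ℝ) : Prop where
  E : Sys N α
  hreal : ∀ v k, (∑ i, zv N α v i ^ k).im = 0
  hη : 0 < η
  hG : ∀ s : ℂ, -η < s.re → DifferentiableAt ℂ G₀ s
  hgrow : ∀ s : ℂ, -η < s.re → ‖G₀ s‖ ≤ C * (1 + ‖s‖) ^ κ
  hΨ : ∀ s : ℂ, -η < s.re → s ≠ 0 → G₀ s = s ^ k * Ψ s
  hL : ∀ s : ℂ, 1 / 2 < s.re → Ψ s = LE N α s

theorem Mc.ana (H : Mc N α Ψ G₀ k κ η C) : AnalyticAt ℂ G₀ 0 := by
  have hU : IsOpen {s : ℂ | -η < s.re} := isOpen_lt continuous_const Complex.continuous_re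
  exact (DifferentiableOn.analyticOnNhd (fun z hz => (H.hG z hz).differentiableWithinAt) hU) 0
    (show -η < (0 : ℂ).re by simpa using H.hη)

theorem Mc.cn (H : Mc N α Ψ G₀ k κ η C) :
    ∃ (e : X × ℕ → ℕ) (g : ℂ → ℂ) (p : ℕ), Function.Injective e ∧
      Cn (lamS N e) (cS' N α e) (Real.log 2) 1 G₀ g k p κ η C := by
  have E := H.E
  have := E.cnt
  obtain ⟨e, he⟩ := Countable.exists_injective_nat (X × ℕ)
  have hη := H.hη
  have hexp : ∀ s : ℂ, 1 < s.re → s ^ k * exp (-DD (lamS N e) (cS' N α e) s) = G₀ s := by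
    intro s hs
    have hs0 : s ≠ 0 := by
      rintro rfl
      simp at hs
      linarith
    rw [DD_neg, E.exp_DD H.hreal he (by linarith), ← H.hL s (by linarith),
      H.hΨ s (by linarith) hs0]
  have hU : IsOpen {s : ℂ | -η < s.re} := isOpen_lt continuous_const Complex.continuous_re
  have hUc : Convex ℝ {s : ℂ | -η < s.re} := convex_halfSpace_re_gt _
  have a1 : AnalyticOnNhd ℂ G₀ {s : ℂ | -η < s.re} :=
    DifferentiableOn.analyticOnNhd (fun z hz => (H.hG z hz).differentiableWithinAt) hU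
  have hfin : analyticOrderAt G₀ 0 ≠ ⊤ := by
    intro htop
    rw [analyticOrderAt_eq_top] at htop
    have h1 := a1.eqOn_of_preconnected_of_eventuallyEq (analyticOnNhd_const (v := (0 : ℂ)))
      hUc.isPreconnected (show (0 : ℂ) ∈ {s : ℂ | -η < s.re} by
        show -η < (0 : ℂ).re
        simpa using hη) htop
    have h2 : G₀ 2 = 0 := h1 (show -η < (2 : ℂ).re by
      simp only [Complex.re_ofNat]
      linarith)
    have h3 := hexp 2 (by norm_num)
    rw [h2] at h3
    exact mul_ne_zero (pow_ne_zero _ two_ne_zero) (Complex.exp_ne_zero _) h3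
  obtain ⟨p, hp⟩ := ENat.ne_top_iff_exists.1 hfin
  have hm := hp.symm
  rw [H.ana.analyticOrderAt_eq_natCast] at hm
  obtain ⟨g, hg, hg1, hge⟩ := hm
  refine ⟨e, g, p, he, dat' E he, hη, H.hG, H.hgrow, hexp, hg, hg1, ?_⟩
  filter_upwards [hge] with z hz
  rw [hz, sub_zero, smul_eq_mul]

/-- the local form of `Ψ` -/
theorem local_form {p : ℕ} (hη : 0 < η)
    (hΨ : ∀ s : ℂ, -η < s.re → s ≠ 0 → G₀ s = s ^ k * Ψ s)
    (near : ∀ᶠ s in 𝓝 (0 : ℂ), G₀ s = s ^ p * g s) :
    ∀ᶠ s in 𝓝[≠] (0 : ℂ), Ψ s = s ^ ((p : ℤ) - k) * g s := by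
  have ho : IsOpen {s : ℂ | -η < s.re} := isOpen_lt continuous_const Complex.continuous_re
  have h1 : ∀ᶠ s in 𝓝 (0 : ℂ), -η < s.re := ho.mem_nhds (by
    show -η < (0 : ℂ).re
    simpa using hη)
  filter_upwards [nhdsWithin_le_nhds near, nhdsWithin_le_nhds h1, self_mem_nhdsWithin] with s h2 h3 h4
  have h5 : s ≠ 0 := h4
  have h6 := hΨ s h3 h5
  rw [h2] at h6
  rw [zpow_sub₀ h5, zpow_natCast, zpow_natCast]
  field_simp
  rw [h6]
  ring

theorem Mc.zf (H : Mc N α Ψ G₀ k κ η C) :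
    (∀ s : ℂ, 0 < s.re → G₀ s ≠ 0) ↔ ∀ s : ℂ, 0 < s.re → Ψ s ≠ 0 := by
  have hη := H.hη
  refine forall_congr' fun s => imp_congr_right fun hs => ?_
  have h0 : s ≠ 0 := by rintro rfl; simp at hs
  rw [H.hΨ s (by linarith) h0]
  simp [h0]

theorem mero_of (hg : AnalyticAt ℂ g 0) (hg0 : g 0 ≠ 0) {n : ℤ}
    (h : ∀ᶠ s in 𝓝[≠] (0 : ℂ), Ψ s = s ^ n * g s) :
    MeromorphicAt Ψ 0 ∧ meromorphicOrderAt Ψ 0 = n := by
  have h1 : MeromorphicAt (fun s : ℂ => s ^ n * g s) 0 :=
    ((MeromorphicAt.id 0).zpow n).mul hg.meromorphicAt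
  have h2 : MeromorphicAt Ψ 0 := h1.congr (by
    filter_upwards [h] with s hs
    exact hs.symm)
  refine ⟨h2, ?_⟩
  rw [meromorphicOrderAt_eq_int_iff h2]
  refine ⟨g, hg, hg0, ?_⟩
  filter_upwards [h] with s hs
  rw [hs, sub_zero, smul_eq_mul]

/-- the order is an integer -/
theorem Mc.order (H : Mc N α Ψ G₀ k κ η C) : MeromorphicAt Ψ 0 ∧
    ∃ n : ℤ, meromorphicOrderAt Ψ 0 = n := by
  obtain ⟨e, g, p, he, Q⟩ := H.cn
  obtain ⟨h1, h2⟩ := mero_of Q.hg Q.hg0 (local_form H.hη H.hΨ Q.near)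
  exact ⟨h1, _, h2⟩

/-- the deviation -/
noncomputable def Dv (N : X → ℕ) (α : X → Fin d → ℂ) (r : ℤ) (A : ℝ) (Y : ℝ) : ℝ :=
  Pl N α Y + r * (Real.eulerMascheroniConstant + Real.log (Real.log Y)) - Real.log A

theorem dv_sq (E : Sys N α) (he : Function.Injective e) (r : ℤ) (A : ℝ) :
    IntegrableOn (fun Y : ℝ => Dv N α r A Y ^ 2 / Y) (Ioi (Real.exp 1)) ↔
      IntegrableOn (fun T : ℝ => (Sh (lamS N e) (cS' N α e) T - (r : ℝ) * Real.log T -
        ((r : ℝ) * Real.eulerMascheroniConstant - Real.log A)) ^ 2) (Ioi 1) := by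
  rw [← cov_int]
  refine integrableOn_congr_fun (fun Y hY => ?_) measurableSet_Ioi
  have h0 : 0 < Y := (Real.exp_pos 1).trans hY
  rw [sh_eq E he, Real.exp_log h0]
  unfold Dv
  congr 1
  ring

theorem dv_abs (E : Sys N α) (he : Function.Injective e) (r : ℤ) (A : ℝ) {T : ℝ} (hT : 1 ≤ T) :
    ∫ Y in Real.exp 1..Real.exp T, |Dv N α r A Y| / Y =
      ∫ t in (1 : ℝ)..T, |Sh (lamS N e) (cS' N α e) t - (r : ℝ) * Real.log t -
        ((r : ℝ) * Real.eulerMascheroniConstant - Real.log A)| := by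
  rw [← cov_ii _ hT]
  refine intervalIntegral.integral_congr fun Y hY => ?_
  rw [uIcc_of_le (Real.exp_le_exp.2 hT)] at hY
  have h0 : 0 < Y := (Real.exp_pos 1).trans_le hY.1
  rw [sh_eq E he, Real.exp_log h0, ← abs_neg]
  unfold Dv
  congr 2
  ring

theorem tendsto_exp_iff {f : ℝ → ℝ} {l : Filter ℝ} :
    Tendsto f atTop l ↔ Tendsto (fun T : ℝ => f (Real.exp T)) atTop l := by
  constructor
  · intro h
    exact h.comp Real.tendsto_exp_atTop
  · intro h
    have h1 := h.comp Real.tendsto_log_atTop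
    refine h1.congr' ?_
    filter_upwards [eventually_gt_atTop 0] with Y hY
    simp only [Function.comp_apply]
    rw [Real.exp_log hY]

theorem eventually_exp_iff {f : ℝ → Prop} :
    (∀ᶠ Y : ℝ in atTop, f Y) ↔ ∀ᶠ T : ℝ in atTop, f (Real.exp T) := by
  constructor
  · intro h
    exact Real.tendsto_exp_atTop.eventually h
  · intro h
    have h1 := Real.tendsto_log_atTop.eventually h
    filter_upwards [h1, eventually_gt_atTop 0] with Y h2 hY
    rwa [Real.exp_log hY] at h2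

/-- **The mean square criterion for the order.** -/
theorem Mc.tfae_order (H : Mc N α Ψ G₀ k κ η C) (r : ℤ) : List.TFAE [
    (∀ s : ℂ, 0 < s.re → Ψ s ≠ 0) ∧ meromorphicOrderAt Ψ 0 = r,
    ∃ A : ℝ, 0 < A ∧ IntegrableOn (fun Y : ℝ => Dv N α r A Y ^ 2 / Y) (Ioi (Real.exp 1)),
    ∃ B : ℝ, ∀ᶠ Y : ℝ in atTop,
      ∫ y in Real.exp 1..Y, |Pl N α y + r * Real.log (Real.log y)| / y ≤ B * Real.log Y] := by
  obtain ⟨e, g, p, he, Q⟩ := H.cn
  have hord := (mero_of Q.hg Q.hg0 (local_form H.hη H.hΨ Q.near)).2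
  have t := Q.tfae' (r : ℝ)
  rw [H.zf] at t
  have e1 : (p : ℝ) = k + (r : ℝ) ↔ meromorphicOrderAt Ψ 0 = r := by
    rw [hord]
    constructor
    · intro h
      have : (p : ℤ) = k + r := by exact_mod_cast h
      have h2 : (p : ℤ) - k = r := by omega
      rw [h2]
    · intro h
      have h2 : (p : ℤ) - k = r := by exact_mod_cast h
      have : (p : ℤ) = k + r := by omega
      exact_mod_cast this
  rw [e1] at t
  tfae_have 1 → 2 := by
    intro h
    obtain ⟨q, hq⟩ : ∃ q : ℝ, IntegrableOn (fun T : ℝ => (Sh (lamS N e) (cS' N α e) T -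
      (r : ℝ) * Real.log T - q) ^ 2) (Ioi 1) := (t.out 0 1).1 h
    refine ⟨Real.exp ((r : ℝ) * Real.eulerMascheroniConstant - q), Real.exp_pos _, ?_⟩
    rw [dv_sq H.E he, Real.log_exp, sub_sub_cancel]
    exact hq
  tfae_have 2 → 1 := by
    rintro ⟨A, -, hA⟩
    rw [dv_sq H.E he] at hA
    have h2 : ∃ q : ℝ, IntegrableOn (fun T : ℝ => (Sh (lamS N e) (cS' N α e) T -
      (r : ℝ) * Real.log T - q) ^ 2) (Ioi 1) := ⟨_, hA⟩
    exact (t.out 0 1).2 h2
  tfae_have 1 ↔ 3 := by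
    have t2 : ((∀ s : ℂ, 0 < s.re → Ψ s ≠ 0) ∧ meromorphicOrderAt Ψ 0 = r) ↔
        ∃ B : ℝ, ∀ᶠ T : ℝ in atTop, ∫ u in (1 : ℝ)..T,
          |Sh (lamS N e) (cS' N α e) u - (r : ℝ) * Real.log u| ≤ B * T := t.out 0 2
    rw [t2]
    refine exists_congr fun B => ?_
    rw [eventually_exp_iff (f := fun Y => ∫ y in Real.exp 1..Y,
      |Pl N α y + r * Real.log (Real.log y)| / y ≤ B * Real.log Y)]
    refine eventually_congr ?_
    filter_upwards [eventually_ge_atTop 1] with T hT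
    rw [Real.log_exp, ← cov_ii _ hT]
    have : ∫ X in Real.exp 1..Real.exp T, |Sh (lamS N e) (cS' N α e) (Real.log X) -
        (r : ℝ) * Real.log (Real.log X)| / X =
        ∫ y in Real.exp 1..Real.exp T, |Pl N α y + r * Real.log (Real.log y)| / y := by
      refine intervalIntegral.integral_congr fun Y hY => ?_
      rw [uIcc_of_le (Real.exp_le_exp.2 hT)] at hY
      have h0 : 0 < Y := (Real.exp_pos 1).trans_le hY.1
      rw [sh_eq H.E he, Real.exp_log h0, ← abs_neg]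
      congr 2
      ring
    rw [this]
  tfae_finish

/-- **The mean square criterion for the order and the leading coefficient.** -/
theorem Mc.tfae_lead (H : Mc N α Ψ G₀ k κ η C) (r : ℤ) {A : ℝ} (hA : 0 < A) : List.TFAE [
    (∀ s : ℂ, 0 < s.re → Ψ s ≠ 0) ∧ Tendsto (fun s => Ψ s / s ^ r) (𝓝[≠] 0) (𝓝 (A : ℂ)),
    IntegrableOn (fun Y : ℝ => Dv N α r A Y ^ 2 / Y) (Ioi (Real.exp 1)),
    Tendsto (fun Y : ℝ => (∫ y in Real.exp 1..Y, |Dv N α r A y| / y) / Real.log Y) atTop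
      (𝓝 0)] := by
  have hAc : (A : ℂ) ≠ 0 := by exact_mod_cast hA.ne'
  obtain ⟨e, g, p, he, Q⟩ := H.cn
  have hloc := local_form H.hη H.hΨ Q.near
  have t := Q.tfae (r : ℝ) ((r : ℝ) * Real.eulerMascheroniConstant - Real.log A)
  rw [H.zf] at t
  have hgA : Real.exp ((r : ℝ) * Real.eulerMascheroniConstant -
      ((r : ℝ) * Real.eulerMascheroniConstant - Real.log A)) = A := by
    rw [sub_sub_cancel, Real.exp_log hA]
  rw [hgA] at t
  have e1 : ((p : ℝ) = k + (r : ℝ) ∧ g 0 = (A : ℂ)) ↔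
      Tendsto (fun s => Ψ s / s ^ r) (𝓝[≠] 0) (𝓝 (A : ℂ)) := by
    have hg : Tendsto g (𝓝[≠] 0) (𝓝 (g 0)) :=
      Q.hg.continuousAt.tendsto.mono_left nhdsWithin_le_nhds
    constructor
    · rintro ⟨h1, h2⟩
      have h3 : (p : ℤ) - k = r := by
        have : (p : ℤ) = k + r := by exact_mod_cast h1
        omega
      rw [← h2]
      refine hg.congr' ?_
      filter_upwards [hloc, self_mem_nhdsWithin] with s h4 h5
      have h6 : s ≠ 0 := h5
      rw [h4, h3]
      field_simp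
    · intro h
      -- compare the orders
      have h1 : Tendsto (fun s : ℂ => s ^ ((p : ℤ) - k - r)) (𝓝[≠] 0) (𝓝 (A / g 0)) := by
        refine (h.div hg Q.hg0).congr' ?_
        filter_upwards [hloc, self_mem_nhdsWithin, hg.eventually_ne Q.hg0] with s h4 h5 h7
        have h6 : s ≠ 0 := h5
        rw [Pi.div_apply, h4, zpow_sub₀ h6 _ r]
        field_simp
      have h2 : A / g 0 ≠ 0 := div_ne_zero hAc Q.hg0
      have h3 : (p : ℤ) - k - r = 0 := by
        rcases lt_trichotomy ((p : ℤ) - k - r) 0 with hlt | heq | hgt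
        · exfalso
          obtain ⟨n, hn⟩ : ∃ n : ℕ, (p : ℤ) - k - r = -((n : ℤ) + 1) :=
            ⟨(-((p : ℤ) - k - r) - 1).toNat, by omega⟩
          have hx0 : Tendsto (fun s : ℂ => s) (𝓝[≠] 0) (𝓝 0) := nhdsWithin_le_nhds
          have h4 := h1.mul (hx0.pow (n + 1))
          rw [zero_pow (by omega), mul_zero] at h4
          have h5 : Tendsto (fun _ : ℂ => (1 : ℂ)) (𝓝[≠] (0 : ℂ)) (𝓝 0) := by
            refine h4.congr' ?_
            filter_upwards [self_mem_nhdsWithin] with x hx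
            have hxc : x ≠ 0 := hx
            rw [hn, zpow_neg]
            have : x ^ ((n : ℤ) + 1) = x ^ (n + 1) := by
              rw [← zpow_natCast]
              push_cast
              rfl
            rw [this]
            field_simp
          exact one_ne_zero (tendsto_nhds_unique tendsto_const_nhds h5)
        · exact heq
        · exfalso
          obtain ⟨n, hn⟩ : ∃ n : ℕ, (p : ℤ) - k - r = ((n : ℤ) + 1) :=
            ⟨(((p : ℤ) - k - r) - 1).toNat, by omega⟩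
          have hx0 : Tendsto (fun s : ℂ => s) (𝓝[≠] 0) (𝓝 0) := nhdsWithin_le_nhds
          have h4 := hx0.pow (n + 1)
          rw [zero_pow (by omega)] at h4
          have h5 : Tendsto (fun s : ℂ => s ^ ((p : ℤ) - k - r)) (𝓝[≠] 0) (𝓝 0) := by
            refine h4.congr' ?_
            filter_upwards [self_mem_nhdsWithin] with x hx
            rw [hn, ← zpow_natCast]
            push_cast
            rfl
          exact h2 (tendsto_nhds_unique h1 h5)
      rw [h3] at h1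
      simp only [zpow_zero] at h1
      have h4 := tendsto_nhds_unique h1 tendsto_const_nhds
      refine ⟨?_, ?_⟩
      · have : (p : ℤ) = k + r := by omega
        exact_mod_cast this
      · rw [div_eq_one_iff_eq Q.hg0] at h4
        exact h4.symm
  rw [e1] at t
  tfae_have 1 ↔ 2 := by
    rw [dv_sq H.E he]
    exact t.out 0 1
  tfae_have 1 ↔ 3 := by
    rw [tendsto_exp_iff (f := fun Y => (∫ y in Real.exp 1..Y, |Dv N α r A y| / y) / Real.log Y)]
    have h0 : (fun T : ℝ => (∫ y in Real.exp 1..Real.exp T, |Dv N α r A y| / y) /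
        Real.log (Real.exp T)) =ᶠ[atTop] fun T : ℝ => (∫ u in (1 : ℝ)..T,
          |Sh (lamS N e) (cS' N α e) u - (r : ℝ) * Real.log u -
            ((r : ℝ) * Real.eulerMascheroniConstant - Real.log A)|) / T := by
      filter_upwards [eventually_ge_atTop 1] with T hT
      rw [Real.log_exp, dv_abs H.E he r A hT]
    rw [tendsto_congr' h0]
    exact t.out 0 2
  tfae_finish

/-- **Chebyshev's inequality**: the exceptional sets have finite logarithmic measure -/
theorem fin_log_meas {f : ℝ → ℝ} (hf : IntegrableOn (fun Y : ℝ => f Y ^ 2 / Y) (Ioi (Real.exp 1)))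
    {ε : ℝ} (hε : 0 < ε) (hm : MeasurableSet {Y : ℝ | Real.exp 1 < Y ∧ ε < |f Y|}) :
    ∫⁻ Y in {Y : ℝ | Real.exp 1 < Y ∧ ε < |f Y|}, ENNReal.ofReal (1 / Y) < ⊤ := by
  have h1 : ∫⁻ Y in Ioi (Real.exp 1), ENNReal.ofReal (f Y ^ 2 / Y) < ⊤ := by
    have h2 := hf.2
    refine lt_of_le_of_lt (setLIntegral_mono_ae' measurableSet_Ioi
      (Eventually.of_forall fun Y hY => ?_)) h2
    have h0 : 0 < Y := (Real.exp_pos 1).trans hY
    rw [← ofReal_norm, Real.norm_of_nonneg (by positivity)]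
  have h3 : ∫⁻ Y in {Y : ℝ | Real.exp 1 < Y ∧ ε < |f Y|}, ENNReal.ofReal (1 / Y) ≤
      ENNReal.ofReal (1 / ε ^ 2) * ∫⁻ Y in Ioi (Real.exp 1), ENNReal.ofReal (f Y ^ 2 / Y) := by
    rw [← lintegral_const_mul' _ _ ENNReal.ofReal_ne_top]
    have h4 : ∀ Y : ℝ, Y ∈ {Y : ℝ | Real.exp 1 < Y ∧ ε < |f Y|} → ENNReal.ofReal (1 / Y) ≤
        ENNReal.ofReal (1 / ε ^ 2) * ENNReal.ofReal (f Y ^ 2 / Y) := by
      rintro Y ⟨hY, hY2⟩
      have h0 : 0 < Y := (Real.exp_pos 1).trans hY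
      rw [← ENNReal.ofReal_mul (by positivity)]
      apply ENNReal.ofReal_le_ofReal
      have h5 : ε ^ 2 ≤ f Y ^ 2 := by
        rw [← sq_abs (f Y)]
        exact pow_le_pow_left₀ hε.le hY2.le 2
      calc 1 / Y = 1 / ε ^ 2 * (ε ^ 2 / Y) := by field_simp
        _ ≤ _ := by gcongr
    refine le_trans ?_ (lintegral_mono_set (s := {Y : ℝ | Real.exp 1 < Y ∧ ε < |f Y|})
      (fun Y hY => hY.1))
    exact lintegral_mono_ae ((ae_restrict_mem hm).mono h4)
  exact h3.trans_lt (ENNReal.mul_lt_top ENNReal.ofReal_lt_top h1)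

theorem dv_meas (H : Mc N α Ψ G₀ k κ η C) (r : ℤ) (A ε : ℝ) :
    MeasurableSet {Y : ℝ | Real.exp 1 < Y ∧ ε < |Dv N α r A Y|} := by
  obtain ⟨e, g, p, he, Q⟩ := H.cn
  set m : ℝ → ℝ := fun Y => -Sh (lamS N e) (cS' N α e) (Real.log Y) +
    r * (Real.eulerMascheroniConstant + Real.log (Real.log Y)) - Real.log A with hm
  have hmm : Measurable m := by
    have h1 := (sh_meas Q.D).comp Real.measurable_log
    have h2 := Real.measurable_log.comp Real.measurable_log
    exact (h1.neg.add ((h2.const_add _).const_mul _)).sub_const _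
  have h1 : {Y : ℝ | Real.exp 1 < Y ∧ ε < |Dv N α r A Y|} =
      {Y : ℝ | Real.exp 1 < Y} ∩ {Y : ℝ | ε < |m Y|} := by
    ext Y
    simp only [Set.mem_inter_iff, Set.mem_ofPred_eq]
    refine and_congr_right fun hY => ?_
    have h0 : 0 < Y := (Real.exp_pos 1).trans hY
    have : Dv N α r A Y = m Y := by
      rw [hm]
      simp only
      rw [sh_eq H.E he, Real.exp_log h0, neg_neg]
      rfl
    rw [this]
  rw [h1]
  exact (measurableSet_lt measurable_const measurable_id).inter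
    (measurableSet_lt measurable_const hmm.abs)

end Pool.Agent.TH270.MS
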