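import Pool.Agent.TH270.MS.QSys
import Pool.Agent.TH270.MS.Sys
import Pool.Agent.W263.BSD.Lead8

/-!
# Elliptic curves over `ℚ` as systems of primes
-/

set_option autoImplicit false

open MeasureTheory Filter Topology Set Complex
open Pool.Agent.TH942.ES
open Pool.Agent.W263.BSD (GoodPrime pointCount IsLSeries bsdProduct bsdStar bsdProduct_pos)

namespace Pool.Agent.TH270.MS.EQ

variable {a b : ℤ} {F : ℂ → ℂ}

theorem three_le (a b : ZMod 3) : (Finset.univ.filter fun q : ZMod 3 × ZMod 3 =>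
    q.2 ^ 2 = q.1 ^ 3 + a * q.1 + b).card ≤ 6 := by
  revert a b
  decide

theorem hasse' {p : ℕ} (h : GoodPrime a b p) : |(p : ℝ) - pointCount a b p| ≤ 2 * √p := by
  rcases Nat.lt_or_ge p 5 with h5 | h5
  · have hp := h.1
    have h3 : p = 3 := by
      have h2 := hp.two_le
      have e2 : p ≠ 2 := by
        rintro rfl
        exact h.2 (Dvd.intro _ rfl)
      have e4 : p ≠ 4 := by
        rintro rfl
        norm_num at hp
      omega
    subst h3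
    have h1 : pointCount a b 3 ≤ 6 := by
      unfold pointCount
      rw [Nat.card_eq_fintype_card, Fintype.card_subtype]
      exact three_le a b
    have h2 : (pointCount a b 3 : ℝ) ≤ 6 := by exact_mod_cast h1
    have h3 : (0 : ℝ) ≤ pointCount a b 3 := Nat.cast_nonneg _
    have h4 : (3 : ℝ) ≤ 2 * √3 := by
      have : (3 / 2 : ℝ) ≤ √3 := Real.le_sqrt_of_sq_le (by norm_num)
      linarith
    rw [abs_le]
    push_cast
    constructor <;> linarith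
  · exact Pool.Agent.W263.BSD.hasse h h5

/-- the primes -/
def nQ (a b : ℤ) (v : {p : ℕ // GoodPrime a b p}) : ℕ := v.1

/-- half of the normalized trace -/
noncomputable def tQ (a b : ℤ) (p : ℕ) : ℝ := ((p : ℝ) - pointCount a b p) / (2 * √p)

/-- the roots -/
noncomputable def alQ (a b : ℤ) (v : {p : ℕ // GoodPrime a b p}) : Fin 2 → ℂ := rt (tQ a b v.1)

theorem sqrt_pos' (v : {p : ℕ // GoodPrime a b p}) : 0 < √(v.1 : ℝ) :=
  Real.sqrt_pos.2 (by exact_mod_cast v.2.1.pos)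

theorem tQ_abs (v : {p : ℕ // GoodPrime a b p}) : |tQ a b v.1| ≤ 1 := by
  have h1 := sqrt_pos' v
  unfold tQ
  rw [abs_div, abs_of_pos (by linarith : 0 < 2 * √(v.1 : ℝ)), div_le_one (by linarith)]
  exact hasse' v.2

theorem two_le' (v : {p : ℕ // GoodPrime a b p}) : (2 : ℝ) ≤ (v.1 : ℕ) := by
  exact_mod_cast v.2.1.two_le

theorem sysQ (a b : ℤ) : Sys (nQ a b) (alQ a b) :=
  q_sys (GoodPrime a b) (fun _ h => h.1) (alQ a b) (fun v i => rt_norm (tQ_abs v) i) fun v => by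
    unfold alQ
    rw [rt_log (tQ_abs v) (two_le' v), Complex.ofReal_im]

theorem cvQ (v : {p : ℕ // GoodPrime a b p}) :
    cv (nQ a b) (alQ a b) v = Real.log (((pointCount a b v.1 : ℝ) + 1) / v.1) := by
  have hp2 := two_le' v
  have h1 := sqrt_pos' v
  unfold cv zv alQ nQ
  rw [rt_log (tQ_abs v) hp2, Complex.ofReal_re]
  congr 1
  have h2 : √(v.1 : ℝ) ^ 2 = v.1 := Real.sq_sqrt (by linarith)
  have h0 : (0 : ℝ) < v.1 := by linarith
  unfold tQ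
  have e1 : 2 * (((v.1 : ℝ) - pointCount a b v.1) / (2 * √(v.1 : ℝ))) / √(v.1 : ℝ) =
      ((v.1 : ℝ) - pointCount a b v.1) / (√(v.1 : ℝ) ^ 2) := by
    field_simp
  rw [e1, h2]
  field_simp
  ring

theorem facQ (v : {p : ℕ // GoodPrime a b p}) (s : ℂ) :
    ∏ i, (1 - zv (nQ a b) (alQ a b) v i * xv (nQ a b) v s)⁻¹ =
      (1 - ((v.1 : ℂ) - (pointCount a b v.1 : ℂ)) * (v.1 : ℂ) ^ (-(1 + s)) +
        (v.1 : ℂ) ^ (1 - 2 * (1 + s)))⁻¹ := by
  have hp2 := two_le' v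
  have hn0 : (0 : ℝ) < v.1 := by linarith
  have h1 := sqrt_pos' v
  have h1c : ((√(v.1 : ℝ) : ℝ) : ℂ) ≠ 0 := by exact_mod_cast h1.ne'
  have hnc : ((v.1 : ℕ) : ℂ) ≠ 0 := by exact_mod_cast hn0.ne'
  have h2 : ((√(v.1 : ℝ) : ℝ) : ℂ) ^ 2 = v.1 := by
    rw [← Complex.ofReal_pow, Real.sq_sqrt hn0.le]
    push_cast
    rfl
  have hcp : ∀ w : ℂ, (v.1 : ℂ) ^ w = exp (w * Real.log v.1) := by
    intro w
    rw [Complex.cpow_def_of_ne_zero hnc, ← Complex.ofReal_natCast, ← Complex.ofReal_log hn0.le]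
    congr 1
    ring
  set x : ℂ := xv (nQ a b) v s with hx
  have hx' : x = exp (-(s * Real.log v.1)) := rfl
  have e1 : (v.1 : ℂ) ^ (-(1 + s)) = x / v.1 := by
    have e2 : (v.1 : ℂ) ^ (-(1 + s)) = (v.1 : ℂ) ^ (-s) * (v.1 : ℂ) ^ (-(1 : ℂ)) := by
      rw [← Complex.cpow_add _ _ hnc]
      congr 1
      ring
    rw [e2, Complex.cpow_neg_one, hcp, hx', div_eq_mul_inv]
    congr 3
    ring
  have e2 : (v.1 : ℂ) ^ (1 - 2 * (1 + s)) = x ^ 2 / v.1 := by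
    have e3 : (v.1 : ℂ) ^ (1 - 2 * (1 + s)) =
        (v.1 : ℂ) ^ (-2 * s) * (v.1 : ℂ) ^ (-(1 : ℂ)) := by
      rw [← Complex.cpow_add _ _ hnc]
      congr 1
      ring
    rw [e3, Complex.cpow_neg_one, hcp, hx', div_eq_mul_inv, ← Complex.exp_nat_mul]
    congr 2
    push_cast
    ring
  rw [Fin.prod_univ_two, ← mul_inv]
  congr 1
  have e3 := rt_prod (tQ_abs v) (x / ((√(v.1 : ℝ) : ℝ) : ℂ))
  have e4 : ∀ i, zv (nQ a b) (alQ a b) v i * x =
      rt (tQ a b v.1) i * (x / ((√(v.1 : ℝ) : ℝ) : ℂ)) := by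
    intro i
    unfold zv alQ nQ
    ring
  rw [e4, e4, e3, e1, e2]
  unfold tQ
  rw [div_pow, h2]
  push_cast
  have e5 : 2 * (((v.1 : ℂ) - (pointCount a b v.1 : ℂ)) / (2 * ((√(v.1 : ℝ) : ℝ) : ℂ))) *
      (x / ((√(v.1 : ℝ) : ℝ) : ℂ)) =
      ((v.1 : ℂ) - (pointCount a b v.1 : ℂ)) * x / (((√(v.1 : ℝ) : ℝ) : ℂ) ^ 2) := by
    field_simp
  rw [e5, h2]
  ring

theorem zv_conj (v : {p : ℕ // GoodPrime a b p}) :
    zv (nQ a b) (alQ a b) v 1 = (starRingEnd ℂ) (zv (nQ a b) (alQ a b) v 0) := by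
  unfold zv alQ
  rw [rt_conj, map_div₀, Complex.conj_ofReal]

theorem hrealQ (v : {p : ℕ // GoodPrime a b p}) (k : ℕ) :
    (∑ i, zv (nQ a b) (alQ a b) v i ^ k).im = 0 := by
  rw [Fin.sum_univ_two, zv_conj, ← map_pow, Complex.add_im, Complex.conj_im]
  ring

/-- the Euler product -/
theorem LE_Q (hF : IsLSeries a b F) {s : ℂ} (hs : 1 / 2 < s.re) :
    F (1 + s) = LE (nQ a b) (alQ a b) s := by
  classical
  have h1 := hF.2 (1 + s) (by rw [Complex.add_re, Complex.one_re]; norm_num at hs ⊢; linarith)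
  have h2 := (sysQ a b).hasProd hs
  rw [← (sysQ a b).LE_eq hs] at h2
  have h3 : (fun v : {p : ℕ // GoodPrime a b p} =>
      ∏ i, (1 - zv (nQ a b) (alQ a b) v i * xv (nQ a b) v s)⁻¹) =
      (fun p : ℕ => (1 - ((p : ℂ) - (pointCount a b p : ℂ)) * (p : ℂ) ^ (-(1 + s)) +
        (p : ℂ) ^ (1 - 2 * (1 + s)))⁻¹) ∘ Subtype.val := by
    funext v
    rw [facQ]
    rfl
  rw [h3] at h2
  have h4 := hasProd_subtype_iff_mulIndicator (s := {p : ℕ | GoodPrime a b p}).1 h2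
  refine HasProd.unique h1 ?_
  convert h4 using 1
  funext p
  rw [Set.mulIndicator_apply]
  rfl

open Classical in
theorem sumQ (g : ℕ → ℝ) (p : ℕ → Prop) (Y : ℝ) (hp : ∀ q, p q → (q : ℝ) ≤ Y) :
    ∑ᶠ (v : {p : ℕ // GoodPrime a b p}) (_ : p v.1), g v.1 =
      ∑ q ∈ (Finset.range (⌊Y⌋₊ + 1)).filter (fun q => GoodPrime a b q ∧ p q), g q := by
  have h1 := finsum_subtype_eq_finsum_cond (GoodPrime a b) (f := fun q : ℕ => ∑ᶠ (_ : p q), g q)
  rw [h1]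
  have h2 : ∀ q : ℕ, (∑ᶠ (_ : GoodPrime a b q), ∑ᶠ (_ : p q), g q) =
      if GoodPrime a b q ∧ p q then g q else 0 := by
    intro q
    rw [finsum_eq_if, finsum_eq_if]
    by_cases h3 : GoodPrime a b q <;> by_cases h4 : p q <;> simp [h3, h4]
  simp only [h2]
  rw [finsum_eq_sum_of_support_subset
    (s := (Finset.range (⌊Y⌋₊ + 1)).filter (fun q => GoodPrime a b q ∧ p q))]
  · refine Finset.sum_congr rfl fun q hq => ?_
    rw [if_pos (Finset.mem_filter.1 hq).2]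
  · intro q hq
    rw [Function.mem_support] at hq
    have h3 : GoodPrime a b q ∧ p q := by
      by_contra h
      exact hq (if_neg h)
    rw [Finset.mem_coe, Finset.mem_filter, Finset.mem_range]
    have := Nat.le_floor (hp q h3.2)
    exact ⟨by omega, h3⟩

/-- the logarithm of the product over the primes `≤ Y` -/
theorem log_product (Y : ℝ) : Real.log (bsdProduct a b Y) =
    ∑ᶠ (v : {p : ℕ // GoodPrime a b p}) (_ : (nQ a b v : ℝ) ≤ Y), cv (nQ a b) (alQ a b) v := by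
  classical
  have h1 := sumQ (a := a) (b := b) (fun q => Real.log (((pointCount a b q : ℝ) + 1) / q))
    (fun q => (q : ℝ) ≤ Y) Y (fun q h => h)
  have h2 : ∑ᶠ (v : {p : ℕ // GoodPrime a b p}) (_ : (nQ a b v : ℝ) ≤ Y),
      cv (nQ a b) (alQ a b) v = ∑ᶠ (v : {p : ℕ // GoodPrime a b p}) (_ : (v.1 : ℝ) ≤ Y),
        Real.log (((pointCount a b v.1 : ℝ) + 1) / v.1) := by
    refine finsum_congr fun v => ?_
    rw [cvQ]
    rfl
  rw [h2, h1]
  unfold bsdProduct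
  rw [Real.log_prod]
  · refine Finset.sum_congr ?_ fun _ _ => rfl
    ext q
    simp only [Finset.mem_filter, Finset.mem_range]
    constructor
    · rintro ⟨h3, h4⟩
      refine ⟨h3, h4, ?_⟩
      have h5 : q ≤ ⌊Y⌋₊ := by omega
      rcases le_or_gt 0 Y with h6 | h6
      · exact (Nat.le_floor_iff h6).1 h5
      · rw [Nat.floor_of_nonpos h6.le] at h5
        have := h4.1.pos
        omega
    · rintro ⟨h3, h4, -⟩
      exact ⟨h3, h4⟩
  · intro q hq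
    have hq0 : (0 : ℝ) < q := by exact_mod_cast (Finset.mem_filter.1 hq).2.1.pos
    positivity

theorem cP_one (v : {p : ℕ // GoodPrime a b p}) : cP (nQ a b) (alQ a b) (v, 1) =
    (((v.1 : ℝ) - pointCount a b v.1) ^ 2 - 2 * v.1) / (2 * (v.1 : ℝ) ^ 2) := by
  have hp2 := two_le' v
  have hn0 : (0 : ℝ) < v.1 := by linarith
  have h1 := sqrt_pos' v
  have h2 : √(v.1 : ℝ) ^ 2 = v.1 := Real.sq_sqrt hn0.le
  have ht := tQ_abs v
  have h3 : 0 ≤ 1 - (tQ a b v.1) ^ 2 := by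
    have := sq_le_one_iff_abs_le_one (tQ a b v.1) |>.2 ht
    linarith
  have h4 : √(1 - (tQ a b v.1) ^ 2) ^ 2 = 1 - (tQ a b v.1) ^ 2 := Real.sq_sqrt h3
  have e0 : rt (tQ a b v.1) 0 = (tQ a b v.1 : ℂ) + √(1 - (tQ a b v.1) ^ 2) * I := rfl
  have e1 : rt (tQ a b v.1) 1 = (tQ a b v.1 : ℂ) - √(1 - (tQ a b v.1) ^ 2) * I := rfl
  have h5 : ∑ i, zv (nQ a b) (alQ a b) v i ^ 2 =
      (((4 * (tQ a b v.1) ^ 2 - 2) / v.1 : ℝ) : ℂ) := by
    rw [Fin.sum_univ_two]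
    unfold zv alQ nQ
    rw [e0, e1, div_pow, div_pow, ← Complex.ofReal_pow, h2]
    have h6 : ((√(1 - (tQ a b v.1) ^ 2) : ℝ) : ℂ) ^ 2 = 1 - (tQ a b v.1 : ℂ) ^ 2 := by
      rw [← Complex.ofReal_pow, h4]
      push_cast
      rfl
    have h7 : ((tQ a b v.1 : ℂ) + √(1 - (tQ a b v.1) ^ 2) * I) ^ 2 +
        ((tQ a b v.1 : ℂ) - √(1 - (tQ a b v.1) ^ 2) * I) ^ 2 = 4 * (tQ a b v.1 : ℂ) ^ 2 - 2 := by
      have : ((tQ a b v.1 : ℂ) + √(1 - (tQ a b v.1) ^ 2) * I) ^ 2 +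
        ((tQ a b v.1 : ℂ) - √(1 - (tQ a b v.1) ^ 2) * I) ^ 2 = 2 * (tQ a b v.1 : ℂ) ^ 2 +
          2 * (((√(1 - (tQ a b v.1) ^ 2) : ℝ) : ℂ) ^ 2 * I ^ 2) := by ring
      rw [this, h6, Complex.I_sq]
      ring
    rw [← add_div, h7]
    push_cast
    rfl
  unfold cP
  simp only
  rw [h5, Complex.ofReal_re]
  unfold tQ
  rw [div_pow, mul_pow, h2]
  push_cast
  field_simp
  ring

/-- the terms of the squares of the primes between `√Y` and `Y` -/
theorem corr_eq (Y : ℝ) : ∑ᶠ (v : {p : ℕ // GoodPrime a b p}) (_ : √Y < nQ a b v ∧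
      (nQ a b v : ℝ) ≤ Y), cP (nQ a b) (alQ a b) (v, 1) =
    Real.log (bsdStar a b Y) - Real.log (bsdProduct a b Y) := by
  classical
  have h1 := sumQ (a := a) (b := b) (fun q => (((q : ℝ) - pointCount a b q) ^ 2 - 2 * q) /
    (2 * (q : ℝ) ^ 2)) (fun q => √Y < q ∧ (q : ℝ) ≤ Y) Y (fun q h => h.2)
  have h2 : ∑ᶠ (v : {p : ℕ // GoodPrime a b p}) (_ : √Y < nQ a b v ∧ (nQ a b v : ℝ) ≤ Y),
      cP (nQ a b) (alQ a b) (v, 1) = ∑ᶠ (v : {p : ℕ // GoodPrime a b p})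
      (_ : √Y < v.1 ∧ (v.1 : ℝ) ≤ Y), (((v.1 : ℝ) - pointCount a b v.1) ^ 2 - 2 * v.1) /
        (2 * (v.1 : ℝ) ^ 2) := by
    refine finsum_congr fun v => ?_
    rw [cP_one]
    rfl
  rw [h2, h1]
  unfold bsdStar
  rw [Real.log_mul (bsdProduct_pos Y).ne' (Real.exp_pos _).ne', Real.log_exp, add_sub_cancel_left]
  refine Finset.sum_congr ?_ fun _ _ => rfl
  ext q
  simp only [Finset.mem_filter, Finset.mem_range]
  constructor
  · rintro ⟨h3, h4, h5, h6⟩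
    exact ⟨h3, h4, h5⟩
  · rintro ⟨h3, h4, h5⟩
    refine ⟨h3, h4, h5, ?_⟩
    have h7 : q ≤ ⌊Y⌋₊ := by omega
    rcases le_or_gt 0 Y with h6 | h6
    · exact (Nat.le_floor_iff h6).1 h7
    · rw [Nat.floor_of_nonpos h6.le] at h7
      have := h4.1.pos
      omega

end Pool.Agent.TH270.MS.EQ
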