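import Pool.Agent.TH270.MS.Sys

/-!
# Tail of the sharp Euler product: prime powers versus primes (helper347)
-/

set_option autoImplicit false

open MeasureTheory Filter Topology Set Complex
open Pool.Agent.TH942.ES

namespace Pool.Agent.TH270.MS

namespace Tail

variable {X : Type} {d : ℕ} {N : X → ℕ} {α : X → Fin d → ℂ}

lemma cP_hasSum (E : Sys N α) (v : X) :
    HasSum (fun k : ℕ => cP N α (v, k)) (-cv N α v) := by
  have h1 : ∀ i, HasSum (fun k : ℕ => (zv N α v i) ^ (k + 1) / ((k + 1 : ℕ) : ℂ))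
      (-log (1 - zv N α v i)) := by
    intro i
    have hz : ‖zv N α v i‖ < 1 := lt_of_le_of_lt (E.norm_zv_le v i) (by norm_num)
    have h2 := hasSum_taylorSeries_neg_log hz
    have h3 := (hasSum_nat_add_iff' (f := fun n : ℕ => (zv N α v i) ^ n / (n : ℂ)) 1).2 h2
    simpa using h3
  have h2 := Complex.reCLM.hasSum (hasSum_sum fun i (_ : i ∈ Finset.univ) => h1 i)
  have h3 : Complex.reCLM (∑ i, -log (1 - zv N α v i)) = -cv N α v := by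
    rw [Finset.sum_neg_distrib, map_neg]
    rfl
  rw [h3] at h2
  have h4 : (fun k : ℕ => cP N α (v, k)) = fun k : ℕ =>
      Complex.reCLM (∑ i, (zv N α v i) ^ (k + 1) / ((k + 1 : ℕ) : ℂ)) := by
    funext k
    rw [← Finset.sum_div]
    have e : ((k + 1 : ℕ) : ℂ) = (((k : ℝ) + 1 : ℝ) : ℂ) := by push_cast; rfl
    rw [e]
    show cP N α (v, k) = ((∑ i, (zv N α v i) ^ (k + 1)) / (((k : ℝ) + 1 : ℝ) : ℂ)).re
    rw [Complex.div_ofReal_re]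
    rfl
  rw [h4]
  exact h2

/-- the numbers `a = N ^ (-5/12)` -/
lemma a_le {x : ℝ} (hx : 2 ≤ x) : x ^ (-(5 / 12 : ℝ)) ≤ 4 / 5 := by
  have h1 : x ^ (-(5 / 12 : ℝ)) ≤ (2 : ℝ) ^ (-(5 / 12 : ℝ)) :=
    Real.rpow_le_rpow_of_nonpos (by norm_num) hx (by norm_num)
  have h2 : (2 : ℝ) ^ (-(5 / 12 : ℝ)) = ((1 / 32 : ℝ)) ^ (((12 : ℕ) : ℝ)⁻¹) := by
    have e : (1 / 32 : ℝ) = (2 : ℝ) ^ (-(5 : ℝ)) := by
      rw [Real.rpow_neg (by norm_num)]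
      norm_num
    rw [e, ← Real.rpow_mul (by norm_num)]
    norm_num
  have h3 : ((1 / 32 : ℝ)) ^ (((12 : ℕ) : ℝ)⁻¹) ≤ ((4 / 5 : ℝ) ^ 12) ^ (((12 : ℕ) : ℝ)⁻¹) :=
    Real.rpow_le_rpow (by norm_num) (by norm_num) (by positivity)
  rw [Real.pow_rpow_inv_natCast (by norm_num) (by norm_num)] at h3
  linarith

lemma term_le (E : Sys N α) {Y : ℝ} (hY : 0 < Y) (v : X) (k : ℕ)
    (hk : Y < (N v : ℝ) ^ (k + 3)) :
    |cP N α (v, k + 2)| ≤ Y ^ (-(1 / 12 : ℝ)) * (d * (N v : ℝ) ^ (-(5 / 4 : ℝ))) * (4 / 5) ^ k := by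
  have hN := E.Npos v
  have h1 := E.cP_abs (v, k + 2)
  have e0 : (k + 2) + 1 = k + 3 := rfl
  simp only [e0] at h1
  have e1 : (1 / √(N v : ℝ)) ^ (k + 3) =
      ((N v : ℝ) ^ (k + 3)) ^ (-(1 / 12 : ℝ)) * ((N v : ℝ) ^ (-(5 / 12 : ℝ))) ^ (k + 3) := by
    have e2 : 1 / √(N v : ℝ) = (N v : ℝ) ^ (-(1 / 12 : ℝ)) * (N v : ℝ) ^ (-(5 / 12 : ℝ)) := by
      rw [← Real.rpow_add hN, Real.sqrt_eq_rpow, one_div, ← Real.rpow_neg hN.le]
      congr 1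
      norm_num
    have e3 : ((N v : ℝ) ^ (k + 3)) ^ (-(1 / 12 : ℝ)) =
        ((N v : ℝ) ^ (-(1 / 12 : ℝ))) ^ (k + 3) := by
      rw [← Real.rpow_natCast, ← Real.rpow_natCast, ← Real.rpow_mul hN.le, ← Real.rpow_mul hN.le,
        mul_comm]
    rw [e2, mul_pow, e3]
  have h2 : ((N v : ℝ) ^ (k + 3)) ^ (-(1 / 12 : ℝ)) ≤ Y ^ (-(1 / 12 : ℝ)) :=
    Real.rpow_le_rpow_of_nonpos hY hk.le (by norm_num)
  have ha0 : 0 < (N v : ℝ) ^ (-(5 / 12 : ℝ)) := Real.rpow_pos_of_pos hN _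
  have h3 : ((N v : ℝ) ^ (-(5 / 12 : ℝ))) ^ (k + 3) ≤
      (N v : ℝ) ^ (-(5 / 4 : ℝ)) * (4 / 5) ^ k := by
    have e4 : ((N v : ℝ) ^ (-(5 / 12 : ℝ))) ^ 3 = (N v : ℝ) ^ (-(5 / 4 : ℝ)) := by
      rw [← Real.rpow_natCast, ← Real.rpow_mul hN.le]
      congr 1
      norm_num
    rw [pow_add, mul_comm, e4]
    exact mul_le_mul_of_nonneg_left (pow_le_pow_left₀ ha0.le (a_le (E.Ntwo v)) k) (by positivity)
  calc |cP N α (v, k + 2)| ≤ d * (1 / √(N v : ℝ)) ^ (k + 3) := h1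
    _ = d * (((N v : ℝ) ^ (k + 3)) ^ (-(1 / 12 : ℝ)) *
          ((N v : ℝ) ^ (-(5 / 12 : ℝ))) ^ (k + 3)) := by rw [e1]
    _ ≤ d * (Y ^ (-(1 / 12 : ℝ)) * ((N v : ℝ) ^ (-(5 / 4 : ℝ)) * (4 / 5) ^ k)) := by
        apply mul_le_mul_of_nonneg_left _ (Nat.cast_nonneg d)
        exact mul_le_mul h2 h3 (by positivity) (by positivity)
    _ = _ := by ring

lemma lt_of_pow (E : Sys N α) {Y : ℝ} {n : ℕ} (hn : Y < n) (v : X) (k : ℕ)
    (hk : (N v : ℝ) ^ (k + 1) ≤ Y) : k < n := by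
  have h1 := E.Ntwo v
  by_contra hcon
  push Not at hcon
  have h2 : (2 : ℝ) ^ (k + 1) ≤ (N v : ℝ) ^ (k + 1) := pow_le_pow_left₀ (by norm_num) h1 _
  have h3 : (k : ℝ) < 2 ^ (k + 1) := by
    have h5 : k < 2 ^ (k + 1) := (Nat.lt_two_pow_self).trans_le
      (Nat.pow_le_pow_right (by norm_num) (by omega))
    exact_mod_cast h5
  have h4 : (n : ℝ) ≤ k := by exact_mod_cast hcon
  linarith

open Classical in
/-- one prime -/
lemma one (E : Sys N α) {Y : ℝ} (hY : 1 ≤ Y) {n : ℕ} (hn : Y < n) (v : X) (hv : (N v : ℝ) ≤ Y) :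
    |cv N α v + (∑ k ∈ Finset.range n, if (N v : ℝ) ^ (k + 1) ≤ Y then cP N α (v, k) else 0) +
        (if √Y < N v then cP N α (v, 1) else 0)| ≤
      Y ^ (-(1 / 12 : ℝ)) * (d * (N v : ℝ) ^ (-(5 / 4 : ℝ))) * 5 := by
  have hN := E.Npos v
  have hY0 : 0 < Y := by linarith
  have h1 := cP_hasSum E v
  have h2 : HasSum (fun k : ℕ => if (N v : ℝ) ^ (k + 1) ≤ Y then cP N α (v, k) else 0)
      (∑ k ∈ Finset.range n, if (N v : ℝ) ^ (k + 1) ≤ Y then cP N α (v, k) else 0) := by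
    apply hasSum_sum_of_ne_finset_zero
    intro k hk
    rw [Finset.mem_range] at hk
    rw [if_neg]
    exact fun h => hk (lt_of_pow E hn v k h)
  have h3 := h1.sub h2
  have h4 := (hasSum_nat_add_iff' 2).2 h3
  rw [Finset.sum_range_succ, Finset.sum_range_one] at h4
  have e0 : (N v : ℝ) ^ (0 + 1) ≤ Y := by simpa using hv
  have e1 : (√Y < N v) ↔ ¬ (N v : ℝ) ^ (1 + 1) ≤ Y := by
    rw [not_le, Real.sqrt_lt' hN]
  rw [if_pos e0, sub_self, zero_add] at h4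
  have h5 : ∀ k : ℕ, ‖cP N α (v, k + 2) -
      (if (N v : ℝ) ^ (k + 2 + 1) ≤ Y then cP N α (v, k + 2) else 0)‖ ≤
      Y ^ (-(1 / 12 : ℝ)) * (d * (N v : ℝ) ^ (-(5 / 4 : ℝ))) * (4 / 5) ^ k := by
    intro k
    split_ifs with hk
    · rw [sub_self, norm_zero]
      positivity
    · rw [sub_zero, Real.norm_eq_abs]
      push Not at hk
      exact term_le E hY0 v k hk
  have h6 : HasSum (fun k : ℕ => Y ^ (-(1 / 12 : ℝ)) * (d * (N v : ℝ) ^ (-(5 / 4 : ℝ))) *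
      (4 / 5) ^ k) (Y ^ (-(1 / 12 : ℝ)) * (d * (N v : ℝ) ^ (-(5 / 4 : ℝ))) * 5) := by
    have h7 := (hasSum_geometric_of_lt_one (r := (4 / 5 : ℝ)) (by norm_num) (by norm_num)).mul_left
      (Y ^ (-(1 / 12 : ℝ)) * (d * (N v : ℝ) ^ (-(5 / 4 : ℝ))))
    have e : (1 - 4 / 5 : ℝ)⁻¹ = 5 := by norm_num
    rw [e] at h7
    exact h7
  have h8 := HasSum.norm_le_of_bounded h4 h6 h5
  rw [Real.norm_eq_abs, ← abs_neg] at h8
  refine le_trans (le_of_eq ?_) h8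
  congr 1
  by_cases hc : √Y < N v
  · rw [if_pos hc, if_neg (e1.1 hc)]
    ring
  · have hc' : (N v : ℝ) ^ (1 + 1) ≤ Y := by
      by_contra h
      exact hc (e1.2 h)
    rw [if_neg hc, if_pos hc']
    ring

end Tail

theorem sharp_tail {X : Type} {d : ℕ} {N : X → ℕ} {α : X → Fin d → ℂ} (E : Sys N α) :
    ∃ C : ℝ, ∀ Y : ℝ, 1 ≤ Y →
      |(∑ᶠ (v : X) (_ : (N v : ℝ) ≤ Y), cv N α v) + Pl N α Y +
        ∑ᶠ (v : X) (_ : √Y < N v ∧ (N v : ℝ) ≤ Y), cP N α (v, 1)| ≤ C * Y ^ (-(1 / 12 : ℝ)) := by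
  classical
  refine ⟨5 * d * ∑' v, (N v : ℝ) ^ (-(5 / 4 : ℝ)), fun Y hY => ?_⟩
  have hY0 : 0 < Y := by linarith
  obtain ⟨n, hn⟩ := exists_nat_gt Y
  have hA := E.fin_le Y
  have e1 : (∑ᶠ (v : X) (_ : (N v : ℝ) ≤ Y), cv N α v) = ∑ v ∈ hA.toFinset, cv N α v :=
    finsum_mem_eq_finite_toFinset_sum (fun v : X => cv N α v) hA
  have hB : {v : X | √Y < N v ∧ (N v : ℝ) ≤ Y}.Finite := hA.subset fun v hv => hv.2
  have e2 : (∑ᶠ (v : X) (_ : √Y < N v ∧ (N v : ℝ) ≤ Y), cP N α (v, 1)) =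
      ∑ v ∈ hA.toFinset, if √Y < N v then cP N α (v, 1) else 0 := by
    have h1 : (∑ᶠ (v : X) (_ : √Y < N v ∧ (N v : ℝ) ≤ Y), cP N α (v, 1)) =
        ∑ v ∈ hB.toFinset, cP N α (v, 1) :=
      finsum_mem_eq_finite_toFinset_sum (fun v : X => cP N α (v, 1)) hB
    rw [h1, ← Finset.sum_filter]
    refine Finset.sum_congr ?_ fun _ _ => rfl
    ext v
    rw [Finset.mem_filter, Set.Finite.mem_toFinset, Set.Finite.mem_toFinset]
    exact ⟨fun h => ⟨h.2, h.1⟩, fun h => ⟨h.2, h.1⟩⟩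
  have hS := E.finS Y
  have e3 : Pl N α Y = ∑ v ∈ hA.toFinset, ∑ k ∈ Finset.range n,
      if (N v : ℝ) ^ (k + 1) ≤ Y then cP N α (v, k) else 0 := by
    have h1 : Pl N α Y = ∑ p ∈ hS.toFinset, cP N α p :=
      finsum_mem_eq_finite_toFinset_sum (fun p : X × ℕ => cP N α p) hS
    rw [h1, ← Finset.sum_product', ← Finset.sum_filter]
    refine Finset.sum_congr ?_ fun _ _ => rfl
    ext ⟨v, k⟩
    rw [Finset.mem_filter, Set.Finite.mem_toFinset, Finset.mem_product, Set.Finite.mem_toFinset,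
      Finset.mem_range]
    constructor
    · intro h
      have h2 : (N v : ℝ) ^ (k + 1) ≤ Y := h
      have h3 : (N v : ℝ) ≤ (N v : ℝ) ^ (k + 1) :=
        le_self_pow₀ (by have := E.Ntwo v; linarith) (by omega)
      exact ⟨⟨h3.trans h2, Tail.lt_of_pow E hn v k h2⟩, h2⟩
    · exact fun h => h.2
  rw [e1, e2, e3, ← Finset.sum_add_distrib, ← Finset.sum_add_distrib]
  refine (Finset.abs_sum_le_sum_abs _ _).trans ?_
  calc _ ≤ ∑ v ∈ hA.toFinset, Y ^ (-(1 / 12 : ℝ)) * (d * (N v : ℝ) ^ (-(5 / 4 : ℝ))) * 5 := by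
        refine Finset.sum_le_sum fun v hv => ?_
        rw [Set.Finite.mem_toFinset] at hv
        exact Tail.one E hY hn v hv
    _ = 5 * d * Y ^ (-(1 / 12 : ℝ)) * ∑ v ∈ hA.toFinset, (N v : ℝ) ^ (-(5 / 4 : ℝ)) := by
        rw [Finset.mul_sum]
        refine Finset.sum_congr rfl fun v _ => ?_
        ring
    _ ≤ 5 * d * Y ^ (-(1 / 12 : ℝ)) * ∑' v, (N v : ℝ) ^ (-(5 / 4 : ℝ)) := by
        apply mul_le_mul_of_nonneg_left _ (by positivity)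
        exact (E.sum (5 / 4) (by norm_num)).sum_le_tsum _ fun v _ => by positivity
    _ = _ := by ring

end Pool.Agent.TH270.MS
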