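import Pool.Agent.TH270.MS.EQ
import Pool.Agent.TH270.MS.BM
import Pool.Agent.TH270.MS.Tail
import Pool.Agent.W189.ML.Curve

/-!
# The original product of Birch and Swinnerton-Dyer in logarithmic mean square
-/

set_option autoImplicit false

open MeasureTheory Filter Topology Set Complex
open Pool.Agent.TH942.ES
open Pool.Agent.W263.BSD (GoodPrime pointCount IsLSeries bsdProduct bsdStar bsdProduct_pos
  bsdStar_pos rsSum corr_tendsto)

namespace Pool.Agent.TH270.MS.EQ

variable {a b : ℤ} {F : ℂ → ℂ}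

/-- the leading coefficient -/
theorem coeff_lim (hF : Differentiable ℂ F) {m : ℕ} (hm : analyticOrderAt F 1 = m) :
    iteratedDeriv m F 1 / (m.factorial : ℂ) ≠ 0 ∧
      Tendsto (fun s : ℂ => F (1 + s) / s ^ m) (𝓝[≠] 0)
        (𝓝 (iteratedDeriv m F 1 / (m.factorial : ℂ))) := by
  have hFa : AnalyticAt ℂ F 1 := hF.analyticAt 1
  have h1 := (natCast_le_analyticOrderAt_iff_iteratedDeriv_eq_zero hFa (n := m)).mp hm.ge
  have h2 : iteratedDeriv m F 1 ≠ 0 := by
    intro h0
    have h3 : ((m + 1 : ℕ) : ℕ∞) ≤ analyticOrderAt F 1 := by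
      rw [natCast_le_analyticOrderAt_iff_iteratedDeriv_eq_zero hFa]
      intro i hi
      rcases Nat.lt_succ_iff_lt_or_eq.mp hi with h | h
      · exact h1 i h
      · rw [h]; exact h0
    rw [hm] at h3
    have : m + 1 ≤ m := by exact_mod_cast h3
    omega
  refine ⟨div_ne_zero h2 (by exact_mod_cast m.factorial_ne_zero), ?_⟩
  have hfa : AnalyticAt ℂ (fun w : ℂ => F (1 + w)) 0 := by
    have : Differentiable ℂ (fun w : ℂ => F (1 + w)) := hF.comp (by fun_prop)
    exact this.analyticAt 0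
  obtain ⟨G, hG, hG'⟩ := hfa.exists_eq_sum_add_pow_mul (m + 1)
  have h4 : ∀ i, iteratedDeriv i (fun w : ℂ => F (1 + w)) 0 = iteratedDeriv i F 1 := by
    intro i
    rw [iteratedDeriv_comp_const_add]
    simp
  have h5 : ∀ w : ℂ, F (1 + w) = w ^ m * (iteratedDeriv m F 1 / (m.factorial : ℂ) + w * G w) := by
    intro w
    rw [hG' w, Finset.sum_range_succ, Finset.sum_eq_zero, h4, zero_add, smul_eq_mul, smul_eq_mul]
    · ring
    · intro i hi
      rw [h4, h1 i (Finset.mem_range.mp hi), smul_zero]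
  have h8 : Tendsto (fun w : ℂ => iteratedDeriv m F 1 / (m.factorial : ℂ) + w * G w) (𝓝 0)
      (𝓝 (iteratedDeriv m F 1 / (m.factorial : ℂ) + 0 * G 0)) :=
    (tendsto_id.mul hG.continuousAt.tendsto).const_add _
  rw [zero_mul, add_zero] at h8
  refine (h8.mono_left nhdsWithin_le_nhds).congr' ?_
  filter_upwards [self_mem_nhdsWithin] with w hw
  have hw0 : w ≠ 0 := hw
  rw [h5 w]
  field_simp

/-- the order and the leading coefficient from the limit -/
theorem lim_iff (hF : IsLSeries a b F) {m : ℕ} {A : ℂ} (hA : A ≠ 0) :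
    Tendsto (fun s : ℂ => F (1 + s) / s ^ m) (𝓝[≠] 0) (𝓝 A) ↔
      analyticOrderAt F 1 = m ∧ iteratedDeriv m F 1 / (m.factorial : ℂ) = A := by
  constructor
  · intro h
    obtain ⟨n, hn⟩ := Pool.Agent.W189.ML.order_finite_all hF 1
    obtain ⟨h1, h2⟩ := coeff_lim hF.1 hn
    have hmn : m = n := by
      have h3 := h.div h2 h1
      have h4 := h2.div h hA
      rcases lt_trichotomy m n with hlt | heq | hgt
      · exfalso
        obtain ⟨j, rfl⟩ := Nat.exists_eq_add_of_lt hlt
        -- F/s^m = (F/s^n) s^(n-m) → 0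
        have h5 : Tendsto (fun s : ℂ => F (1 + s) / s ^ (m + j + 1) * s ^ (j + 1)) (𝓝[≠] 0)
            (𝓝 (iteratedDeriv (m + j + 1) F 1 / ((m + j + 1).factorial : ℂ) * 0)) := by
          refine h2.mul ?_
          have h6 : Tendsto (fun s : ℂ => s ^ (j + 1)) (𝓝[≠] 0) (𝓝 (0 ^ (j + 1))) :=
            (continuous_pow (j + 1)).continuousAt.tendsto.mono_left nhdsWithin_le_nhds
          rwa [zero_pow (by omega)] at h6
        rw [mul_zero] at h5
        refine hA (tendsto_nhds_unique h (h5.congr' ?_))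
        filter_upwards [self_mem_nhdsWithin] with s hs
        have hs0 : s ≠ 0 := hs
        rw [show m + j + 1 = m + (j + 1) by omega, pow_add]
        field_simp
      · exact heq
      · exfalso
        obtain ⟨j, rfl⟩ := Nat.exists_eq_add_of_lt hgt
        have h5 : Tendsto (fun s : ℂ => F (1 + s) / s ^ (n + j + 1) * s ^ (j + 1)) (𝓝[≠] 0)
            (𝓝 (A * 0)) := by
          refine h.mul ?_
          have h6 : Tendsto (fun s : ℂ => s ^ (j + 1)) (𝓝[≠] 0) (𝓝 (0 ^ (j + 1))) :=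
            (continuous_pow (j + 1)).continuousAt.tendsto.mono_left nhdsWithin_le_nhds
          rwa [zero_pow (by omega)] at h6
        rw [mul_zero] at h5
        refine h1 (tendsto_nhds_unique h2 (h5.congr' ?_))
        filter_upwards [self_mem_nhdsWithin] with s hs
        have hs0 : s ≠ 0 := hs
        rw [show n + j + 1 = n + (j + 1) by omega, pow_add]
        field_simp
    subst hmn
    exact ⟨hn, tendsto_nhds_unique h2 h⟩
  · rintro ⟨h1, h2⟩
    rw [← h2]
    exact (coeff_lim hF.1 h1).2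

/-- `log P(x) - ρ log log x - log C` -/
noncomputable def dev (a b : ℤ) (ρ C x : ℝ) : ℝ :=
  Real.log (bsdProduct a b x / (C * Real.log x ^ ρ))

/-- the deviation of the product over the prime powers -/
noncomputable def devStar (a b : ℤ) (ρ C x : ℝ) : ℝ :=
  Real.log (√2 * bsdStar a b x / (C * Real.log x ^ ρ))

theorem log_sqrt_two : Real.log √2 = Real.log 2 / 2 := by
  rw [Real.sqrt_eq_rpow, Real.log_rpow two_pos]
  ring

theorem dev_eq {ρ C x : ℝ} (hC : 0 < C) (hx : Real.exp 1 ≤ x) : dev a b ρ C x =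
    Real.log (bsdProduct a b x) - ρ * Real.log (Real.log x) - Real.log C := by
  have hl : 0 < Real.log x := by linarith [one_le_log hx]
  have hr := Real.rpow_pos_of_pos hl ρ
  unfold dev
  rw [Real.log_div (bsdProduct_pos x).ne' (by positivity), Real.log_mul hC.ne' hr.ne',
    Real.log_rpow hl]
  ring

theorem devStar_eq {ρ C x : ℝ} (hC : 0 < C) (hx : Real.exp 1 ≤ x) : devStar a b ρ C x =
    Real.log 2 / 2 + Real.log (bsdStar a b x) - ρ * Real.log (Real.log x) - Real.log C := by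
  have hl : 0 < Real.log x := by linarith [one_le_log hx]
  have hr := Real.rpow_pos_of_pos hl ρ
  have h2 : (0 : ℝ) < √2 := by positivity
  have h3 := bsdStar_pos (a := a) (b := b) x
  unfold devStar
  rw [Real.log_div (by positivity) (by positivity), Real.log_mul h2.ne' h3.ne',
    Real.log_mul hC.ne' hr.ne', Real.log_rpow hl, log_sqrt_two]
  ring

/-- the constant -/
noncomputable def AC (ρ C : ℝ) : ℝ := √2 * Real.exp (ρ * Real.eulerMascheroniConstant) / C

theorem AC_pos {ρ C : ℝ} (hC : 0 < C) : 0 < AC ρ C := by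
  unfold AC
  positivity

theorem dvR_AC {ρ C : ℝ} (hC : 0 < C) (x : ℝ) : DvR (nQ a b) (alQ a b) ρ (AC ρ C) x =
    Pl (nQ a b) (alQ a b) x + ρ * Real.log (Real.log x) + Real.log C - Real.log 2 / 2 := by
  have h2 : (0 : ℝ) < √2 := by positivity
  unfold DvR AC
  rw [Real.log_div (by positivity) hC.ne', Real.log_mul h2.ne' (Real.exp_pos _).ne', Real.log_exp,
    log_sqrt_two]
  ring

/-- `log P*` is the sum over the prime powers up to `O(x^(-1/12))` -/
theorem star_close (a b : ℤ) : ∃ K : ℝ, ∀ x : ℝ, Real.exp 1 ≤ x →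
    |Real.log (bsdStar a b x) + Pl (nQ a b) (alQ a b) x| ≤ K * x ^ (-(1 / 12 : ℝ)) := by
  obtain ⟨K, hK⟩ := sharp_tail (sysQ a b)
  refine ⟨K, fun x hx => ?_⟩
  have h1 : (1 : ℝ) ≤ x := by linarith [Real.add_one_le_exp 1]
  have h2 := hK x h1
  rw [corr_eq, ← log_product] at h2
  have h3 : Real.log (bsdProduct a b x) + Pl (nQ a b) (alQ a b) x +
      (Real.log (bsdStar a b x) - Real.log (bsdProduct a b x)) =
      Real.log (bsdStar a b x) + Pl (nQ a b) (alQ a b) x := by ring
  rwa [h3] at h2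

theorem bm_product (a b : ℤ) : BM fun x => Real.log (bsdProduct a b x) := by
  classical
  have h1 := BM.step (GoodPrime a b) (fun q => Real.log (((pointCount a b q : ℝ) + 1) / q))
    (fun _ => -1) measurable_const
  have h2 : (fun x => Real.log (bsdProduct a b x)) = fun x : ℝ =>
      ∑ p ∈ (Finset.range (⌊x⌋₊ + 1)).filter (fun p => GoodPrime a b p ∧ (-1 : ℝ) < p),
        Real.log (((pointCount a b p : ℝ) + 1) / p) := by
    funext x
    unfold bsdProduct
    rw [Real.log_prod]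
    · refine Finset.sum_congr ?_ fun _ _ => rfl
      ext q
      simp only [Finset.mem_filter, Finset.mem_range]
      have hq : (-1 : ℝ) < q := by
        have : (0 : ℝ) ≤ q := Nat.cast_nonneg q
        linarith
      tauto
    · intro q hq
      have hq0 : (0 : ℝ) < q := by exact_mod_cast (Finset.mem_filter.1 hq).2.1.pos
      positivity
  rw [h2]
  exact h1

theorem bm_corr (a b : ℤ) : BM fun x => Real.log (bsdStar a b x) - Real.log (bsdProduct a b x) := by
  classical
  have h1 := BM.step (GoodPrime a b) (fun q => (((q : ℝ) - pointCount a b q) ^ 2 - 2 * q) /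
    (2 * (q : ℝ) ^ 2)) Real.sqrt Real.continuous_sqrt.measurable
  have h2 : (fun x => Real.log (bsdStar a b x) - Real.log (bsdProduct a b x)) = fun x : ℝ =>
      ∑ p ∈ (Finset.range (⌊x⌋₊ + 1)).filter (fun p => GoodPrime a b p ∧ √x < p),
        (((p : ℝ) - pointCount a b p) ^ 2 - 2 * p) / (2 * (p : ℝ) ^ 2) := by
    funext x
    unfold bsdStar
    rw [Real.log_mul (bsdProduct_pos x).ne' (Real.exp_pos _).ne', Real.log_exp,
      add_sub_cancel_left]
  rw [h2]
  exact h1

/-- the terms of the squares of the primes -/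
theorem corr_lim (hΔ : 4 * a ^ 3 + 27 * b ^ 2 ≠ 0) (hrs : Tendsto (rsSum a b) atTop (𝓝 0)) :
    Tendsto (fun x => Real.log (bsdStar a b x) - Real.log (bsdProduct a b x)) atTop
      (𝓝 (-(Real.log 2 / 2))) := by
  refine (corr_tendsto hΔ hrs).congr fun x => ?_
  unfold bsdStar
  rw [Real.log_mul (bsdProduct_pos x).ne' (Real.exp_pos _).ne', Real.log_exp,
    add_sub_cancel_left]

theorem bm_star (a b : ℤ) : BM fun x => Real.log (bsdStar a b x) := by
  have := (bm_corr a b).add (bm_product a b)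
  simpa only [sub_add_cancel] using this

/-- congruence on the half line -/
theorem BM.congr {f g : ℝ → ℝ} (hf : BM f) (h : ∀ x : ℝ, Real.exp 1 ≤ x → f x = g x) : BM g := by
  refine ⟨hf.1.congr ?_, fun Y => ?_⟩
  · filter_upwards [ae_restrict_mem measurableSet_Ioi] with x hx
    exact h x (le_of_lt hx)
  · obtain ⟨M, hM⟩ := hf.2 Y
    exact ⟨M, fun y h1 h2 => by rw [← h y h1]; exact hM y h1 h2⟩

theorem bm_dev (a b : ℤ) {ρ C : ℝ} (hC : 0 < C) : BM (dev a b ρ C) :=
  BM.congr (((bm_product a b).sub ((BM.const ρ).mul BM.loglog)).sub (BM.const (Real.log C)))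
    fun _ hx => (dev_eq hC hx).symm

theorem bm_devStar (a b : ℤ) {ρ C : ℝ} (hC : 0 < C) : BM (devStar a b ρ C) :=
  BM.congr ((((BM.const (Real.log 2 / 2)).add (bm_star a b)).sub
    ((BM.const ρ).mul BM.loglog)).sub (BM.const (Real.log C))) fun _ hx => (devStar_eq hC hx).symm

theorem bm_pl {G₀ : ℂ → ℂ} {Ψ : ℂ → ℂ} {k κ : ℕ} {η C : ℝ}
    (H : Mc (nQ a b) (alQ a b) Ψ G₀ k κ η C) : BM (Pl (nQ a b) (alQ a b)) := by
  obtain ⟨K, hK⟩ := star_close a b
  refine BM.of_close (f := fun x => -Real.log (bsdStar a b x)) (M := |K|) (bm_star a b).neg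
    (pl_meas H) fun y hy => ?_
  have h1 := hK y hy
  have hy1 : (1 : ℝ) ≤ y := by linarith [Real.add_one_le_exp 1]
  have h2 : -Real.log (bsdStar a b y) - Pl (nQ a b) (alQ a b) y =
      -(Real.log (bsdStar a b y) + Pl (nQ a b) (alQ a b) y) := by ring
  rw [h2, abs_neg]
  refine h1.trans ?_
  have h3 : y ^ (-(1 / 12 : ℝ)) ≤ 1 := Real.rpow_le_one_of_one_le_of_nonpos hy1 (by norm_num)
  have h4 : 0 ≤ y ^ (-(1 / 12 : ℝ)) := by positivity
  calc K * y ^ (-(1 / 12 : ℝ)) ≤ |K| * y ^ (-(1 / 12 : ℝ)) := by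
        gcongr
        exact le_abs_self K
    _ ≤ |K| * 1 := by gcongr
    _ = |K| := mul_one _

/-- the data of the curve -/
theorem curve_mc (hF : IsLSeries a b F) {η C₀ : ℝ} {κ : ℕ} (hη : 0 < η)
    (hg : ∀ s : ℂ, 1 - η < s.re → ‖F s‖ ≤ C₀ * (1 + ‖s‖) ^ κ) :
    Mc (nQ a b) (alQ a b) (fun s => F (1 + s)) (fun s => F (1 + s)) 0 κ η (|C₀| * 2 ^ κ) := by
  refine ⟨sysQ a b, fun v k => hrealQ v k, hη, fun s _ => ?_, fun s hs => ?_, fun s _ _ => ?_,
    fun s hs => LE_Q hF hs⟩
  · have : Differentiable ℂ (fun w : ℂ => F (1 + w)) := hF.1.comp (by fun_prop)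
    exact this s
  · refine (hg (1 + s) (by rw [Complex.add_re, Complex.one_re]; linarith)).trans ?_
    have h1 : 1 + ‖1 + s‖ ≤ 2 * (1 + ‖s‖) := by
      have := norm_add_le (1 : ℂ) s
      rw [norm_one] at this
      linarith [norm_nonneg s]
    calc C₀ * (1 + ‖1 + s‖) ^ κ ≤ |C₀| * (2 * (1 + ‖s‖)) ^ κ :=
          mul_le_mul (le_abs_self _) (pow_le_pow_left₀ (by positivity) h1 κ) (by positivity)
            (abs_nonneg _)
      _ = _ := by rw [mul_pow]; ring
  · rw [pow_zero, one_mul]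

/-- **The mean square law for the original product of Birch and Swinnerton-Dyer.** -/
theorem curve_law (hΔ : 4 * a ^ 3 + 27 * b ^ 2 ≠ 0) (hF : IsLSeries a b F)
    (hrs : Tendsto (rsSum a b) atTop (𝓝 0)) {η C₀ : ℝ} {κ : ℕ} (hη : 0 < η)
    (hg : ∀ s : ℂ, 1 - η < s.re → ‖F s‖ ≤ C₀ * (1 + ‖s‖) ^ κ) (ρ : ℝ) {C : ℝ} (hC : 0 < C) :
    List.TFAE [
      (∀ s : ℂ, 1 < s.re → F s ≠ 0) ∧ ∃ m : ℕ, ρ = m ∧ analyticOrderAt F 1 = m ∧
        iteratedDeriv m F 1 / (m.factorial : ℂ) =
          ((√2 * Real.exp (m * Real.eulerMascheroniConstant) / C : ℝ) : ℂ),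
      Tendsto (fun X : ℝ => (∫ x in Real.exp 1..X, |dev a b ρ C x| / x) / Real.log X) atTop (𝓝 0),
      Tendsto (fun X : ℝ => (∫ x in Real.exp 1..X, dev a b ρ C x ^ 2 / x) / Real.log X) atTop
        (𝓝 0),
      IntegrableOn (fun x : ℝ => devStar a b ρ C x ^ 2 / x) (Ioi (Real.exp 1))] := by
  obtain ⟨K, hK⟩ := star_close a b
  -- the data
  have H := curve_mc hF hη hg
  have hA := AC_pos (ρ := ρ) hC
  have t := H.tfae_lead_real ρ hA
  -- relations between the deviations
  have r1 : ∀ x : ℝ, Real.exp 1 ≤ x →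
      |devStar a b ρ C x - (-DvR (nQ a b) (alQ a b) ρ (AC ρ C) x)| ≤ K * x ^ (-(1 / 12 : ℝ)) := by
    intro x hx
    have h1 : devStar a b ρ C x - (-DvR (nQ a b) (alQ a b) ρ (AC ρ C) x) =
        Real.log (bsdStar a b x) + Pl (nQ a b) (alQ a b) x := by
      rw [dvR_AC hC, devStar_eq hC hx]
      ring
    rw [h1]
    exact hK x hx
  have bmD : BM (DvR (nQ a b) (alQ a b) ρ (AC ρ C)) := by
    refine BM.congr (((bm_pl H).add ((BM.const ρ).mul BM.loglog)).add
      (BM.const (Real.log C - Real.log 2 / 2))) fun x _ => ?_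
    rw [dvR_AC hC]
    ring
  have r2 : Tendsto (fun x => dev a b ρ C x - devStar a b ρ C x) atTop (𝓝 0) := by
    have h1 := (corr_lim hΔ hrs).const_sub (-(Real.log 2 / 2))
    rw [sub_self] at h1
    refine h1.congr' ?_
    filter_upwards [eventually_ge_atTop (Real.exp 1)] with x hx
    rw [dev_eq hC hx, devStar_eq hC hx]
    ring
  have r3 : Tendsto (fun x => dev a b ρ C x - -DvR (nQ a b) (alQ a b) ρ (AC ρ C) x) atTop
      (𝓝 0) := by
    have h1 : Tendsto (fun x => devStar a b ρ C x - -DvR (nQ a b) (alQ a b) ρ (AC ρ C) x) atTop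
        (𝓝 0) := by
      have h2 : Tendsto (fun x : ℝ => K * x ^ (-(1 / 12 : ℝ))) atTop (𝓝 0) := by
        have := (tendsto_rpow_neg_atTop (y := 1 / 12) (by norm_num)).const_mul K
        rwa [mul_zero] at this
      refine squeeze_zero_norm' ?_ h2
      filter_upwards [eventually_ge_atTop (Real.exp 1)] with x hx
      rw [Real.norm_eq_abs]
      exact r1 x hx
    have h2 := r2.add h1
    rw [add_zero] at h2
    refine h2.congr fun x => ?_
    ring
  -- the criteria
  have c1 : ((∀ s : ℂ, 1 < s.re → F s ≠ 0) ∧ ∃ m : ℕ, ρ = m ∧ analyticOrderAt F 1 = m ∧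
        iteratedDeriv m F 1 / (m.factorial : ℂ) =
          ((√2 * Real.exp (m * Real.eulerMascheroniConstant) / C : ℝ) : ℂ)) ↔
      ((∀ s : ℂ, 0 < s.re → F (1 + s) ≠ 0) ∧ ∃ m : ℕ, ρ = m ∧
        Tendsto (fun s => F (1 + s) / s ^ m) (𝓝[≠] 0) (𝓝 ((AC ρ C : ℝ) : ℂ))) := by
    refine and_congr ⟨fun h s hs => h _ (by simpa using hs), fun h s hs => ?_⟩ ?_
    · have := h (s - 1) (by simpa using hs)
      rwa [add_sub_cancel] at this
    · refine exists_congr fun m => and_congr_right fun hm => ?_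
      rw [lim_iff hF (by exact_mod_cast hA.ne')]
      unfold AC
      rw [hm]
  have c2 : IntegrableOn (fun x : ℝ => devStar a b ρ C x ^ 2 / x) (Ioi (Real.exp 1)) ↔
      IntegrableOn (fun x : ℝ => DvR (nQ a b) (alQ a b) ρ (AC ρ C) x ^ 2 / x)
        (Ioi (Real.exp 1)) := by
    constructor
    · intro h
      have h1 := sq_int_of_close (f := fun x => -DvR (nQ a b) (alQ a b) ρ (AC ρ C) x)
        (g := devStar a b ρ C) (C := K) bmD.neg.1 (fun y hy => by
          rw [abs_sub_comm]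
          exact r1 y hy) h
      simpa only [neg_sq] using h1
    · intro h
      refine sq_int_of_close (g := fun x => -DvR (nQ a b) (alQ a b) ρ (AC ρ C) x) (C := K)
        (bm_devStar a b hC).1 r1 ?_
      simpa only [neg_sq] using h
  tfae_have 1 ↔ 4 := by
    rw [c1, c2]
    exact t.out 0 1
  tfae_have 4 → 3 := by
    intro h
    exact sq_lmean (bm_dev a b hC).sq.li h ((bm_dev a b hC).sub (bm_devStar a b hC)).sq.li r2
  tfae_have 3 → 2 := fun h => lmean_of_sq (bm_dev a b hC).li (bm_dev a b hC).sq.li h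
  tfae_have 2 → 4 := by
    intro h
    rw [c2]
    have h1 := (lmean_iff (bm_dev a b hC).li bmD.neg.li r3).1 h
    simp only [abs_neg] at h1
    exact (t.out 1 2).2 h1
  tfae_finish

end Pool.Agent.TH270.MS.EQ
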