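import Pool.Agent.TH270.MS.EQ2

/-!
# The order from the original product of Birch and Swinnerton-Dyer
-/

set_option autoImplicit false

open MeasureTheory Filter Topology Set Complex
open Pool.Agent.TH942.ES
open Pool.Agent.W263.BSD (GoodPrime pointCount IsLSeries bsdProduct bsdStar bsdProduct_pos
  bsdStar_pos rsSum corr_tendsto)

namespace Pool.Agent.TH270.MS.EQ

variable {a b : ℤ} {F : ℂ → ℂ}

theorem mero_ord (hF : Differentiable ℂ F) {n : ℕ} (hn : analyticOrderAt F 1 = n) :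
    meromorphicOrderAt (fun s => F (1 + s)) 0 = (n : ℤ) := by
  rw [(hF.analyticAt 1).analyticOrderAt_eq_natCast] at hn
  obtain ⟨g, hg, hg1, he⟩ := hn
  have ht : Tendsto (fun z : ℂ => 1 + z) (𝓝 0) (𝓝 1) := by
    have : Continuous fun z : ℂ => 1 + z := by fun_prop
    simpa using this.tendsto 0
  have hga : AnalyticAt ℂ (fun z : ℂ => g (1 + z)) 0 := by
    have h1 : AnalyticAt ℂ (fun z : ℂ => 1 + z) 0 := by fun_prop
    exact AnalyticAt.comp (f := fun z : ℂ => 1 + z) (by simpa using hg) h1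
  refine (mero_of hga (by simpa using hg1) ?_).2
  filter_upwards [nhdsWithin_le_nhds (ht.eventually he)] with s hs
  rw [hs, add_sub_cancel_left, smul_eq_mul, zpow_natCast]

theorem mero_iff (hF : IsLSeries a b F) {m : ℕ} :
    meromorphicOrderAt (fun s => F (1 + s)) 0 = (m : ℤ) ↔ analyticOrderAt F 1 = m := by
  obtain ⟨n, hn⟩ := Pool.Agent.W189.ML.order_finite_all hF 1
  rw [mero_ord hF.1 hn, hn]
  constructor
  · intro h
    have h1 : (n : ℤ) = m := by exact_mod_cast h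
    have h2 : n = m := by exact_mod_cast h1
    rw [h2]
  · intro h
    have h2 : n = m := by exact_mod_cast h
    rw [h2]

/-- `log P` and the sum over the prime powers differ by a bounded function -/
theorem product_close (hΔ : 4 * a ^ 3 + 27 * b ^ 2 ≠ 0) (hrs : Tendsto (rsSum a b) atTop (𝓝 0)) :
    ∃ M : ℝ, ∀ x : ℝ, Real.exp 1 ≤ x →
      |Real.log (bsdProduct a b x) + Pl (nQ a b) (alQ a b) x| ≤ M := by
  obtain ⟨K, hK⟩ := star_close a b
  obtain ⟨Y₀, hY₀⟩ := (Metric.tendsto_atTop.1 (corr_lim hΔ hrs)) 1 one_pos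
  obtain ⟨M₀, hM₀⟩ := (bm_corr a b).2 Y₀
  refine ⟨|K| + (|M₀| + (1 + |Real.log 2 / 2|)), fun x hx => ?_⟩
  have hx1 : (1 : ℝ) ≤ x := by linarith [Real.add_one_le_exp 1]
  have h1 : |Real.log (bsdStar a b x) + Pl (nQ a b) (alQ a b) x| ≤ |K| := by
    refine (hK x hx).trans ?_
    have h3 : x ^ (-(1 / 12 : ℝ)) ≤ 1 := Real.rpow_le_one_of_one_le_of_nonpos hx1 (by norm_num)
    have h4 : 0 ≤ x ^ (-(1 / 12 : ℝ)) := by positivity
    calc K * x ^ (-(1 / 12 : ℝ)) ≤ |K| * x ^ (-(1 / 12 : ℝ)) := by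
          gcongr
          exact le_abs_self K
      _ ≤ |K| * 1 := by gcongr
      _ = |K| := mul_one _
  have h2 : |Real.log (bsdStar a b x) - Real.log (bsdProduct a b x)| ≤
      |M₀| + (1 + |Real.log 2 / 2|) := by
    rcases le_or_gt x Y₀ with h | h
    · have h3 := hM₀ x hx h
      have h4 := le_abs_self M₀
      have h5 := abs_nonneg (Real.log 2 / 2)
      linarith
    · have h3 := hY₀ x h.le
      rw [Real.dist_eq, sub_neg_eq_add] at h3
      have h4 : Real.log (bsdStar a b x) - Real.log (bsdProduct a b x) =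
          (Real.log (bsdStar a b x) - Real.log (bsdProduct a b x) + Real.log 2 / 2) -
            Real.log 2 / 2 := by ring
      rw [h4]
      refine (abs_sub _ _).trans ?_
      have h5 := abs_nonneg M₀
      linarith
  have h3 : Real.log (bsdProduct a b x) + Pl (nQ a b) (alQ a b) x =
      (Real.log (bsdStar a b x) + Pl (nQ a b) (alQ a b) x) -
        (Real.log (bsdStar a b x) - Real.log (bsdProduct a b x)) := by ring
  rw [h3]
  exact (abs_sub _ _).trans (add_le_add h1 h2)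

/-- **The order from the original product in logarithmic mean.** -/
theorem curve_order (hΔ : 4 * a ^ 3 + 27 * b ^ 2 ≠ 0) (hF : IsLSeries a b F)
    (hrs : Tendsto (rsSum a b) atTop (𝓝 0)) {η C₀ : ℝ} {κ : ℕ} (hη : 0 < η)
    (hg : ∀ s : ℂ, 1 - η < s.re → ‖F s‖ ≤ C₀ * (1 + ‖s‖) ^ κ) (ρ : ℝ) :
    ((∀ s : ℂ, 1 < s.re → F s ≠ 0) ∧ ∃ m : ℕ, ρ = m ∧ analyticOrderAt F 1 = m) ↔
      ∃ B : ℝ, ∀ᶠ X : ℝ in atTop, ∫ x in Real.exp 1..X,
        |Real.log (bsdProduct a b x) - ρ * Real.log (Real.log x)| / x ≤ B * Real.log X := by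
  obtain ⟨M, hM⟩ := product_close hΔ hrs
  have H := curve_mc hF hη hg
  have t : ((∀ s : ℂ, 0 < s.re → F (1 + s) ≠ 0) ∧ ∃ m : ℕ, ρ = m ∧
      meromorphicOrderAt (fun s => F (1 + s)) 0 = (m : ℤ)) ↔
    ∃ B : ℝ, ∀ᶠ Y : ℝ in atTop, ∫ y in Real.exp 1..Y,
      |Pl (nQ a b) (alQ a b) y + ρ * Real.log (Real.log y)| / y ≤ B * Real.log Y :=
    (H.tfae_order_real ρ).out 0 2
  have c1 : ((∀ s : ℂ, 1 < s.re → F s ≠ 0) ∧ ∃ m : ℕ, ρ = m ∧ analyticOrderAt F 1 = m) ↔
      ((∀ s : ℂ, 0 < s.re → F (1 + s) ≠ 0) ∧ ∃ m : ℕ, ρ = m ∧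
        meromorphicOrderAt (fun s => F (1 + s)) 0 = (m : ℤ)) := by
    refine and_congr ⟨fun h s hs => h _ (by simpa using hs), fun h s hs => ?_⟩ ?_
    · have := h (s - 1) (by simpa using hs)
      rwa [add_sub_cancel] at this
    · exact exists_congr fun m => and_congr_right fun _ => (mero_iff hF).symm
  have bm1 : BM fun x => Real.log (bsdProduct a b x) - ρ * Real.log (Real.log x) :=
    (bm_product a b).sub ((BM.const ρ).mul BM.loglog)
  have bm2 : BM fun x => -(Pl (nQ a b) (alQ a b) x + ρ * Real.log (Real.log x)) :=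
    ((bm_pl H).add ((BM.const ρ).mul BM.loglog)).neg
  have hd : ∀ x : ℝ, Real.exp 1 ≤ x → |(Real.log (bsdProduct a b x) - ρ * Real.log (Real.log x)) -
      -(Pl (nQ a b) (alQ a b) x + ρ * Real.log (Real.log x))| ≤ M := by
    intro x hx
    have h1 : (Real.log (bsdProduct a b x) - ρ * Real.log (Real.log x)) -
      -(Pl (nQ a b) (alQ a b) x + ρ * Real.log (Real.log x)) =
      Real.log (bsdProduct a b x) + Pl (nQ a b) (alQ a b) x := by ring
    rw [h1]
    exact hM x hx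
  rw [c1, t]
  constructor
  · intro h
    refine bmean_of bm2.li bm1.li (M := M) (fun x hx => ?_) ?_
    · rw [abs_sub_comm]
      exact hd x hx
    · simp only [abs_neg]
      exact h
  · intro h
    have h1 := bmean_of bm1.li bm2.li hd h
    simpa only [abs_neg] using h1

end Pool.Agent.TH270.MS.EQ
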