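import Mathlib

set_option autoImplicit false

open MeasureTheory Filter Topology Set

/-! Exceptional sets of finite logarithmic measure (written by helper713 for helper270). -/

namespace Pool.Agent.TH270.MS

namespace Exc

/-- the logarithmic measure of the set where `|g| > 1 / (k + 1)` is finite -/
theorem level_finite {g : ℝ → ℝ}
    (h : IntegrableOn (fun x : ℝ => g x ^ 2 / x) (Ioi (Real.exp 1))) (hg : Measurable g) (k : ℕ) :
    ∫⁻ x in {x | x ∈ Ioi (Real.exp 1) ∧ 1 / ((k : ℝ) + 1) < |g x|}, ENNReal.ofReal (1 / x) < ⊤ := by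
  have hA : MeasurableSet {x | x ∈ Ioi (Real.exp 1) ∧ 1 / ((k : ℝ) + 1) < |g x|} :=
    measurableSet_Ioi.inter (measurableSet_lt measurable_const hg.abs)
  have h1 : IntegrableOn (fun x : ℝ => ((k : ℝ) + 1) ^ 2 * (g x ^ 2 / x)) (Ioi (Real.exp 1)) :=
    h.const_mul _
  have h2 := h1.lintegral_lt_top
  refine lt_of_le_of_lt ?_ h2
  refine le_trans (setLIntegral_mono' hA (g := fun x =>
    ENNReal.ofReal (((k : ℝ) + 1) ^ 2 * (g x ^ 2 / x))) ?_) (lintegral_mono_set fun x hx => hx.1)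
  intro x hx
  apply ENNReal.ofReal_le_ofReal
  have hx0 : 0 < x := (Real.exp_pos 1).trans hx.1
  have hk : (0 : ℝ) < (k : ℝ) + 1 := by positivity
  have h3 : 1 ≤ ((k : ℝ) + 1) ^ 2 * g x ^ 2 := by
    have h4 : 1 < ((k : ℝ) + 1) * |g x| := by
      have := hx.2
      rw [div_lt_iff₀ hk] at this
      linarith
    have h5 : ((k : ℝ) + 1) ^ 2 * g x ^ 2 = (((k : ℝ) + 1) * |g x|) ^ 2 := by
      rw [mul_pow, sq_abs]
    rw [h5]
    nlinarith
  rw [← mul_div_assoc]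
  exact div_le_div_of_nonneg_right h3 hx0.le

/-- the tails of a set of finite measure -/
theorem exists_tail {ν : Measure ℝ} {A : Set ℝ} (hA : MeasurableSet A) (hf : ν A < ⊤)
    {δ : ENNReal} (hδ : 0 < δ) : ∃ X : ℕ, ν (A ∩ Ioi (X : ℝ)) < δ := by
  have h1 : Tendsto (fun n : ℕ => ν (A ∩ Ioi (n : ℝ))) atTop (𝓝 (ν (⋂ n : ℕ, A ∩ Ioi (n : ℝ)))) := by
    refine tendsto_measure_iInter_atTop (fun n => (hA.inter measurableSet_Ioi).nullMeasurableSet)
      ?_ ⟨0, ((measure_mono inter_subset_left).trans_lt hf).ne⟩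
    intro m n hmn
    refine inter_subset_inter_right _ (Ioi_subset_Ioi ?_)
    exact_mod_cast hmn
  have h2 : (⋂ n : ℕ, A ∩ Ioi (n : ℝ)) = ∅ := by
    rw [eq_empty_iff_forall_notMem]
    intro x hx
    rw [mem_iInter] at hx
    obtain ⟨n, hn⟩ := exists_nat_gt x
    exact lt_asymm hn (hx n).2
  rw [h2, measure_empty] at h1
  exact (h1.eventually (gt_mem_nhds hδ)).exists

end Exc

open Exc

theorem exc_of_sq {f : ℝ → ℝ}
    (hf : AEStronglyMeasurable f (volume.restrict (Ioi (Real.exp 1))))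
    (h : IntegrableOn (fun x : ℝ => f x ^ 2 / x) (Ioi (Real.exp 1))) :
    ∃ S : Set ℝ, S ⊆ Ioi (Real.exp 1) ∧ MeasurableSet S ∧
      ∫⁻ x in S, ENNReal.ofReal (1 / x) < ⊤ ∧ Tendsto f (atTop ⊓ 𝓟 Sᶜ) (𝓝 0) := by
  obtain ⟨g, hg, hfg⟩ : ∃ g : ℝ → ℝ, Measurable g ∧ f =ᵐ[volume.restrict (Ioi (Real.exp 1))] g :=
    ⟨hf.mk f, hf.stronglyMeasurable_mk.measurable, hf.ae_eq_mk⟩
  have hg2 : IntegrableOn (fun x : ℝ => g x ^ 2 / x) (Ioi (Real.exp 1)) := by
    refine Integrable.congr h ?_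
    filter_upwards [hfg] with x hx
    rw [hx]
  obtain ⟨ν, hν⟩ : ∃ ν : Measure ℝ, ν = volume.withDensity (fun x => ENNReal.ofReal (1 / x)) :=
    ⟨_, rfl⟩
  have hνa : ∀ T : Set ℝ, MeasurableSet T → ν T = ∫⁻ x in T, ENNReal.ofReal (1 / x) := by
    intro T hT
    rw [hν, withDensity_apply _ hT]
  obtain ⟨A, hAd⟩ : ∃ A : ℕ → Set ℝ,
      ∀ k, A k = {x | x ∈ Ioi (Real.exp 1) ∧ 1 / ((k : ℝ) + 1) < |g x|} := ⟨_, fun _ => rfl⟩
  have hAm : ∀ k, MeasurableSet (A k) := by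
    intro k
    rw [hAd]
    exact measurableSet_Ioi.inter (measurableSet_lt measurable_const hg.abs)
  have hAf : ∀ k, ν (A k) < ⊤ := by
    intro k
    rw [hνa _ (hAm k), hAd]
    exact level_finite hg2 hg k
  have hX : ∀ k : ℕ, ∃ X : ℕ, ν (A k ∩ Ioi (X : ℝ)) < (2 : ENNReal)⁻¹ ^ k := fun k =>
    exists_tail (hAm k) (hAf k) (by
      apply ENNReal.pow_pos
      simp)
  choose X hX using hX
  obtain ⟨N, hN1, hN2, hN3⟩ : ∃ N : Set ℝ, MeasurableSet N ∧ volume (N ∩ Ioi (Real.exp 1)) = 0 ∧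
      ∀ x, f x ≠ g x → x ∈ N := by
    refine ⟨toMeasurable (volume.restrict (Ioi (Real.exp 1))) {x | f x ≠ g x},
      measurableSet_toMeasurable _ _, ?_, fun x hx => subset_toMeasurable _ _ hx⟩
    rw [← Measure.restrict_apply (measurableSet_toMeasurable _ _), measure_toMeasurable]
    exact hfg
  have hmU : MeasurableSet (⋃ k, A k ∩ Ioi (X k : ℝ)) :=
    MeasurableSet.iUnion fun k => (hAm k).inter measurableSet_Ioi
  have hmN : MeasurableSet (N ∩ Ioi (Real.exp 1)) := hN1.inter measurableSet_Ioi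
  refine ⟨(N ∩ Ioi (Real.exp 1)) ∪ ⋃ k, A k ∩ Ioi (X k : ℝ), ?_, hmN.union hmU, ?_, ?_⟩
  · refine union_subset inter_subset_right (iUnion_subset fun k => ?_)
    rw [hAd]
    exact fun x hx => hx.1.1
  · rw [← hνa _ (hmN.union hmU)]
    refine (measure_union_le _ _).trans_lt ?_
    have h1 : ν (N ∩ Ioi (Real.exp 1)) = 0 := by
      rw [hν]
      exact withDensity_absolutelyContinuous _ _ hN2
    rw [h1, zero_add]
    refine (measure_iUnion_le _).trans_lt ?_
    refine (ENNReal.tsum_le_tsum fun k => (hX k).le).trans_lt ?_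
    rw [ENNReal.tsum_geometric, ENNReal.one_sub_inv_two, inv_inv]
    simp
  · rw [Metric.tendsto_nhds]
    intro ε hε
    rw [eventually_inf_principal]
    obtain ⟨k, hk⟩ := exists_nat_one_div_lt hε
    filter_upwards [eventually_gt_atTop (Real.exp 1), eventually_gt_atTop (X k : ℝ)] with x hx1 hx2 hx3
    rw [mem_compl_iff, mem_union, not_or] at hx3
    have h1 : f x = g x := by
      by_contra hne
      exact hx3.1 ⟨hN3 x hne, hx1⟩
    have h2 : x ∉ A k := fun hA => hx3.2 (mem_iUnion.2 ⟨k, hA, hx2⟩)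
    have h3 : |g x| ≤ 1 / ((k : ℝ) + 1) := by
      by_contra hcon
      apply h2
      rw [hAd]
      exact ⟨hx1, not_le.1 hcon⟩
    rw [Real.dist_eq, sub_zero, h1]
    exact h3.trans_lt hk

theorem exc_neBot {S : Set ℝ} (hS : ∫⁻ x in S, ENNReal.ofReal (1 / x) < ⊤) :
    (atTop ⊓ 𝓟 Sᶜ : Filter ℝ).NeBot := by
  rw [inf_principal_neBot_iff]
  intro U hU
  by_contra hcon
  rw [not_nonempty_iff_eq_empty] at hcon
  obtain ⟨X, hX⟩ := mem_atTop_sets.1 hU
  have h1 : Ioi (max X 1) ⊆ S := by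
    intro x hx
    by_contra hxS
    have h2 : x ∈ U ∩ Sᶜ := ⟨hX x ((le_max_left _ _).trans (le_of_lt hx)), hxS⟩
    rw [hcon] at h2
    exact h2
  have h2 : ∫⁻ x in Ioi (max X 1), ENNReal.ofReal (1 / x) < ⊤ :=
    (lintegral_mono_set h1).trans_lt hS
  apply not_integrableOn_Ioi_inv (a := max X 1)
  refine ⟨measurable_inv.aestronglyMeasurable, ?_⟩
  rw [hasFiniteIntegral_iff_ofReal]
  · simpa only [one_div] using h2
  · rw [EventuallyLE, ae_restrict_iff' measurableSet_Ioi]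
    refine Eventually.of_forall fun x hx => ?_
    have h3 : (0 : ℝ) < x := lt_of_lt_of_le one_pos ((le_max_right X 1).trans (le_of_lt hx))
    exact (inv_pos.2 h3).le

end Pool.Agent.TH270.MS
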