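import Pool.Agent.TH270.MS.EQ3
import Pool.Agent.TH942.OB.Main
import Pool.Agent.TH270.MS.Exc

/-!
# The product law outside a set of finite logarithmic measure, and zeros
-/

set_option autoImplicit false

open MeasureTheory Filter Topology Set Complex
open Pool.Agent.TH942.ES
open Pool.Agent.TH942.LS (Dat)
open Pool.Agent.TH270.RS (cS')
open Pool.Agent.W263.BSD (GoodPrime pointCount IsLSeries bsdProduct bsdStar bsdProduct_pos rsSum LInt)

namespace Pool.Agent.TH270.MS.EQ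

variable {a b : ℤ} {F : ℂ → ℂ}

/-- subpolynomial growth of the logarithm of the product excludes zeros -/
theorem rh_of_growth (hΔ : 4 * a ^ 3 + 27 * b ^ 2 ≠ 0) (hF : IsLSeries a b F)
    (hrs : Tendsto (rsSum a b) atTop (𝓝 0)) {η C₀ : ℝ} {κ : ℕ} (hη : 0 < η)
    (hg : ∀ s : ℂ, 1 - η < s.re → ‖F s‖ ≤ C₀ * (1 + ‖s‖) ^ κ)
    (hb : ∀ ε : ℝ, 0 < ε → ∃ C : ℝ, ∀ x : ℝ, 1 ≤ x → |Real.log (bsdProduct a b x)| ≤ C * x ^ ε) :
    ∀ s : ℂ, 1 < s.re → F s ≠ 0 := by
  have H := curve_mc hF hη hg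
  obtain ⟨e, g, p, he, Q⟩ := H.cn
  obtain ⟨M, hM⟩ := product_close hΔ hrs
  obtain ⟨C₁, hC₁, hb1⟩ := er_le Q.D 0 0
  have hEr : ∀ u : ℝ, Er (lamS (nQ a b) e) (cS' (nQ a b) (alQ a b) e) 0 0 u =
      -Pl (nQ a b) (alQ a b) (Real.exp u) := by
    intro u
    rw [← sh_eq H.E he]
    unfold Er
    by_cases hu : u ∈ Ioi (0 : ℝ)
    · rw [indicator_of_mem hu]
      ring
    · rw [indicator_of_notMem hu]
      ring
  have hbd : ∀ ε : ℝ, 0 < ε → ∃ C : ℝ, 0 ≤ C ∧ ∀ u : ℝ, 0 < u →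
      |Er (lamS (nQ a b) e) (cS' (nQ a b) (alQ a b) e) 0 0 u| ≤ C * Real.exp (ε * u) := by
    intro ε hε
    obtain ⟨C, hC⟩ := hb ε hε
    refine ⟨|C| + |M| + C₁ * Real.exp 1, by positivity, fun u hu => ?_⟩
    have h0 : 1 ≤ Real.exp (ε * u) := Real.one_le_exp (by positivity)
    have hC1e : 0 ≤ C₁ * Real.exp 1 := by positivity
    rcases le_or_gt u 1 with h1 | h1
    · have h2 := hb1 u
      have h3 : Real.exp (1 * u) ≤ Real.exp 1 := Real.exp_le_exp.2 (by linarith)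
      have h4 : C₁ * Real.exp (1 * u) ≤ C₁ * Real.exp 1 := mul_le_mul_of_nonneg_left h3 hC₁
      have h5 : C₁ * Real.exp 1 ≤ (C₁ * Real.exp 1) * Real.exp (ε * u) :=
        le_mul_of_one_le_right hC1e h0
      have h6 : 0 ≤ (|C| + |M|) * Real.exp (ε * u) := by positivity
      have h7 : (|C| + |M| + C₁ * Real.exp 1) * Real.exp (ε * u) =
        (|C| + |M|) * Real.exp (ε * u) + C₁ * Real.exp 1 * Real.exp (ε * u) := by ring
      rw [h7]
      linarith
    · rw [hEr, abs_neg]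
      have hx : Real.exp 1 ≤ Real.exp u := Real.exp_le_exp.2 h1.le
      have hx1 : 1 ≤ Real.exp u := Real.one_le_exp hu.le
      have h2 := hM (Real.exp u) hx
      have h3 := hC (Real.exp u) hx1
      have h4 : Real.exp u ^ ε = Real.exp (ε * u) := by
        rw [← Real.exp_mul, mul_comm]
      rw [h4] at h3
      have h5 : |Pl (nQ a b) (alQ a b) (Real.exp u)| ≤
          |Real.log (bsdProduct a b (Real.exp u)) + Pl (nQ a b) (alQ a b) (Real.exp u)| +
            |Real.log (bsdProduct a b (Real.exp u))| := by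
        have h6 := abs_sub (Real.log (bsdProduct a b (Real.exp u)) +
          Pl (nQ a b) (alQ a b) (Real.exp u)) (Real.log (bsdProduct a b (Real.exp u)))
        rwa [add_sub_cancel_left] at h6
      have h6 : C * Real.exp (ε * u) ≤ |C| * Real.exp (ε * u) :=
        mul_le_mul_of_nonneg_right (le_abs_self C) (Real.exp_pos _).le
      have h7 : M ≤ |M| * Real.exp (ε * u) :=
        (le_abs_self M).trans (le_mul_of_one_le_right (abs_nonneg M) h0)
      have h8 : 0 ≤ C₁ * Real.exp 1 * Real.exp (ε * u) := by positivity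
      have h9 : (|C| + |M| + C₁ * Real.exp 1) * Real.exp (ε * u) =
        |C| * Real.exp (ε * u) + |M| * Real.exp (ε * u) + C₁ * Real.exp 1 * Real.exp (ε * u) := by ring
      rw [h9]
      linarith
  have hint : ∀ x : ℝ, 0 < x → LInt (Er (lamS (nQ a b) e) (cS' (nQ a b) (alQ a b) e) 0 0) x := by
    intro x hx
    obtain ⟨C, hC0, hC⟩ := hbd (x / 2) (by positivity)
    have h1 : IntegrableOn (fun u : ℝ => C * Real.exp (-(x / 2) * u)) (Ioi 0) :=
      (integrableOn_exp_mul_Ioi (by linarith) 0).const_mul C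
    refine Integrable.mono' h1 ((er_meas Q.D 0 0).mul (by fun_prop)).aestronglyMeasurable ?_
    filter_upwards [ae_restrict_mem measurableSet_Ioi] with u hu
    rw [norm_mul, Real.norm_eq_abs, Real.norm_of_nonneg (Real.exp_pos _).le]
    calc _ ≤ C * Real.exp (x / 2 * u) * Real.exp (-(x * u)) :=
          mul_le_mul_of_nonneg_right (hC u hu) (Real.exp_pos _).le
      _ = _ := by
        rw [mul_assoc, ← Real.exp_add]
        ring_nf
  have h1 := (conv (r := 0) (c₀ := 0) Q.D (fun s hs => Q.hG s (by linarith [Q.hη])) Q.hexp Q.hg Q.hg0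
    Q.near hint).1
  intro s hs
  have h2 := h1 (s - 1) (by simpa using hs)
  rwa [add_sub_cancel] at h2

/-- **the product law outside a set of finite logarithmic measure** -/
theorem off_law (hΔ : 4 * a ^ 3 + 27 * b ^ 2 ≠ 0) (hF : IsLSeries a b F)
    (hrs : Tendsto (rsSum a b) atTop (𝓝 0)) {η C₀ : ℝ} {κ : ℕ} (hη : 0 < η)
    (hg : ∀ s : ℂ, 1 - η < s.re → ‖F s‖ ≤ C₀ * (1 + ‖s‖) ^ κ) (hz : ∀ s : ℂ, 1 < s.re → F s ≠ 0)
    {m : ℕ} (hm : analyticOrderAt F 1 = m) :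
    ∃ (S : Set ℝ) (c : ℝ), MeasurableSet S ∧ ∫⁻ x in S, ENNReal.ofReal (1 / x) < ⊤ ∧
      Tendsto (fun x => Real.log (bsdProduct a b x) - (m : ℝ) * Real.log (Real.log x))
        (atTop ⊓ 𝓟 Sᶜ) (𝓝 c) := by
  have H := curve_mc hF hη hg
  have hz' : ∀ s : ℂ, 0 < s.re → F (1 + s) ≠ 0 := fun s hs => hz _ (by simpa using hs)
  have t : ((∀ s : ℂ, 0 < s.re → F (1 + s) ≠ 0) ∧ ∃ n : ℕ, (m : ℝ) = n ∧
      meromorphicOrderAt (fun s => F (1 + s)) 0 = (n : ℤ)) ↔
      ∃ A : ℝ, 0 < A ∧ IntegrableOn (fun Y : ℝ => DvR (nQ a b) (alQ a b) (m : ℝ) A Y ^ 2 / Y)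
        (Ioi (Real.exp 1)) := (H.tfae_order_real (m : ℝ)).out 0 1
  obtain ⟨A, hA, h1⟩ := t.1 ⟨hz', m, rfl, (mero_iff hF).2 hm⟩
  obtain ⟨-, m', hm', h2⟩ := ((H.tfae_lead_real (m : ℝ) hA).out 0 1).2 h1
  have hmm : m = m' := by exact_mod_cast hm'
  subst hmm
  have hlead := ((lim_iff hF (by exact_mod_cast hA.ne')).1 h2).2
  set C' : ℝ := √2 * Real.exp (m * Real.eulerMascheroniConstant) / A with hC'
  have hC'0 : 0 < C' := by positivity
  have h4 : (√2 * Real.exp (m * Real.eulerMascheroniConstant) / C' : ℝ) = A := by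
    have := Real.exp_pos ((m : ℝ) * Real.eulerMascheroniConstant)
    rw [hC']
    field_simp
  have t2 : ((∀ s : ℂ, 1 < s.re → F s ≠ 0) ∧ ∃ m' : ℕ, (m : ℝ) = m' ∧ analyticOrderAt F 1 = m' ∧
        iteratedDeriv m' F 1 / (m'.factorial : ℂ) =
          ((√2 * Real.exp (m' * Real.eulerMascheroniConstant) / C' : ℝ) : ℂ)) ↔
        IntegrableOn (fun x : ℝ => devStar a b (m : ℝ) C' x ^ 2 / x) (Ioi (Real.exp 1)) :=
      (curve_law hΔ hF hrs hη hg (m : ℝ) hC'0).out 0 3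
  have h5 := t2.1 ⟨hz, m, rfl, hm, by rw [h4]; exact hlead⟩
  obtain ⟨S, -, hS1, hS2, hS3⟩ := exc_of_sq (bm_devStar a b (ρ := (m : ℝ)) hC'0).1 h5
  refine ⟨S, Real.log C', hS1, hS2, ?_⟩
  have h6 : Tendsto (fun x => dev a b (m : ℝ) C' x - devStar a b (m : ℝ) C' x) atTop (𝓝 0) := by
    have h7 := (corr_lim hΔ hrs).const_sub (-(Real.log 2 / 2))
    rw [sub_self] at h7
    refine h7.congr' ?_
    filter_upwards [eventually_ge_atTop (Real.exp 1)] with x hx
    rw [dev_eq hC'0 hx, devStar_eq hC'0 hx]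
    ring
  have h8 := ((h6.mono_left inf_le_left).add hS3).add_const (Real.log C')
  rw [add_zero, zero_add] at h8
  refine h8.congr' ?_
  filter_upwards [(eventually_ge_atTop (Real.exp 1)).filter_mono inf_le_left] with x hx
  rw [sub_add_cancel, dev_eq hC'0 hx]
  ring

end Pool.Agent.TH270.MS.EQ
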