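import Pool.Agent.TH270.MS.Sys
import Pool.Agent.TH270.RS.Eul

/-!
# Mean square criteria for Euler products given by real polynomials
-/

set_option autoImplicit false

open MeasureTheory Filter Topology Set Complex NumberField IsDedekindDomain
open Pool.Agent.TH942.ES
open Pool.Agent.TH270.SH
open Pool.Agent.H921R2.TatePole (nm two_le_nm nm_summable)

namespace Pool.Agent.TH270.MS

variable {K : Type} [Field K] [NumberField K] {B : HeightOneSpectrum (𝓞 K) → Polynomial ℝ}
  {D : ℕ} {c : ℝ} {F : ℂ → ℂ}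

/-- the data for the mean square theorem, from a meromorphic continuation with at most one pole -/
theorem mc (h : Eul B D c) {η C : ℝ} {k κ : ℕ} (hη : 0 < η)
    (hd : ∀ s : ℂ, c - η < s.re → s ≠ c → DifferentiableAt ℂ F s)
    (hg : ∀ s : ℂ, c - η < s.re → s ≠ c → ‖(s - c) ^ k * F s‖ ≤ C * (1 + ‖s‖) ^ κ)
    (he : ∀ s : ℂ, c + 1 / 2 < s.re → F s = LB B s) :
    ∃ (G₀ : ℂ → ℂ) (C' : ℝ), Mc nmK (alB B D c) (fun s => F (c + s)) G₀ k κ η C' := by
  classical
  set f : ℂ → ℂ := fun s => s ^ k * F (c + s) with hf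
  set G₀ : ℂ → ℂ := Function.update f 0 (limUnder (𝓝[≠] (0 : ℂ)) f) with hG₀
  have hne : ∀ s : ℂ, s ≠ 0 → G₀ s = f s := fun s hs => by
    rw [hG₀, Function.update_of_ne hs]
  have hcs : ∀ s : ℂ, s ≠ 0 → (c : ℂ) + s ≠ c := fun s hs h => hs (add_eq_left.1 h)
  have hre : ∀ s : ℂ, ((c : ℂ) + s).re = c + s.re := fun s => by
    rw [Complex.add_re, Complex.ofReal_re]
  have hfd : ∀ s : ℂ, -η < s.re → s ≠ 0 → DifferentiableAt ℂ f s := by
    intro s hs hs0
    have h1 : DifferentiableAt ℂ F (c + s) := hd _ (by rw [hre]; linarith) (hcs s hs0)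
    have h2 : DifferentiableAt ℂ (fun s : ℂ => F (c + s)) s :=
      DifferentiableAt.comp (g := F) (f := fun s : ℂ => (c : ℂ) + s) s h1 (by fun_prop)
    exact (differentiableAt_id.pow k).mul h2
  set C₁ : ℝ := |C| * (1 + |c|) ^ κ with hC₁
  have hC₁0 : 0 ≤ C₁ := by positivity
  have hfb : ∀ s : ℂ, -η < s.re → s ≠ 0 → ‖f s‖ ≤ C₁ * (1 + ‖s‖) ^ κ := by
    intro s hs hs0
    have h1 := hg (c + s) (by rw [hre]; linarith) (hcs s hs0)
    rw [add_sub_cancel_left] at h1
    refine h1.trans ?_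
    have e2 : 1 + ‖(c : ℂ) + s‖ ≤ (1 + |c|) * (1 + ‖s‖) := by
      have h2 := norm_add_le (c : ℂ) s
      rw [Complex.norm_real, Real.norm_eq_abs] at h2
      have := norm_nonneg s
      have := abs_nonneg c
      nlinarith
    calc C * (1 + ‖(c : ℂ) + s‖) ^ κ ≤ |C| * ((1 + |c|) * (1 + ‖s‖)) ^ κ :=
          mul_le_mul (le_abs_self C) (pow_le_pow_left₀ (by positivity) e2 κ) (by positivity)
            (abs_nonneg C)
      _ = _ := by rw [mul_pow, hC₁]; ring
  have hU : IsOpen {s : ℂ | -η < s.re} := isOpen_lt continuous_const Complex.continuous_re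
  -- differentiability at zero
  set V : Set ℂ := {s : ℂ | -η < s.re} ∩ Metric.ball 0 1 with hV
  have hVo : IsOpen V := hU.inter Metric.isOpen_ball
  have h0V : (0 : ℂ) ∈ V := ⟨show -η < (0 : ℂ).re by simpa using hη, Metric.mem_ball_self one_pos⟩
  have hbdd : BddAbove (norm ∘ f '' (V \ {0})) := by
    refine ⟨C₁ * 2 ^ κ, ?_⟩
    rintro _ ⟨s, ⟨⟨h1, h2⟩, h3⟩, rfl⟩
    have h4 : ‖s‖ < 1 := by simpa using h2
    refine (hfb s h1 (by simpa using h3)).trans ?_
    apply mul_le_mul_of_nonneg_left _ hC₁0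
    exact pow_le_pow_left₀ (by positivity) (by linarith) κ
  have hd0 := Complex.differentiableOn_update_limUnder_of_bddAbove (hVo.mem_nhds h0V)
    (fun s hs => (hfd s hs.1.1 (by simpa using hs.2)).differentiableWithinAt) hbdd
  have hGd : ∀ s : ℂ, -η < s.re → DifferentiableAt ℂ G₀ s := by
    intro s hs
    by_cases hs0 : s = 0
    · rw [hs0]
      exact (hd0 0 h0V).differentiableAt (hVo.mem_nhds h0V)
    · have h1 : G₀ =ᶠ[𝓝 s] f := by
        filter_upwards [isOpen_ne.mem_nhds hs0] with z hz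
        exact hne z hz
      exact (hfd s hs hs0).congr_of_eventuallyEq h1
  refine ⟨G₀, C₁ + ‖G₀ 0‖, h.sys, h.zpow_real, hη, hGd, fun s hs => ?_, fun s _ hs0 => hne s hs0,
    fun s hs => ?_⟩
  · by_cases hs0 : s = 0
    · rw [hs0, norm_zero, add_zero, one_pow, mul_one]
      linarith
    · rw [hne s hs0]
      refine (hfb s hs hs0).trans (mul_le_mul_of_nonneg_right ?_ (by positivity))
      linarith [norm_nonneg (G₀ 0)]
  · show F (c + s) = _
    rw [he _ (by rw [hre]; linarith), h.LE_eq]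

end Pool.Agent.TH270.MS
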