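import Mathlib
set_option autoImplicit false
open MeasureTheory Filter Topology Set Complex
open scoped ENNReal
namespace Pool.Agent.TH270.MS

namespace PW

open FourierTransform SchwartzMap
open scoped ContDiff

/-! ### The contour shift -/

lemma integrable_decay : Integrable (fun y : ℝ => (1 + |y|) ^ (-(3 / 2 : ℝ))) := by
  have := integrable_one_add_norm (E := ℝ) (μ := volume) (r := 3 / 2) (by simp; norm_num)
  simpa using this

lemma vertical_integrable {H : ℂ → ℂ} {a B : ℝ}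
    (hd : ∀ s : ℂ, s.re = a → ContinuousAt H s)
    (hB : ∀ s : ℂ, s.re = a → ‖H s‖ ≤ B * (1 + |s.im|) ^ (-(3 / 2 : ℝ))) :
    Integrable (fun y : ℝ => H (a + y * I)) := by
  have hc : Continuous (fun y : ℝ => H (a + y * I)) := by
    rw [continuous_iff_continuousAt]
    intro y
    have h1 : ContinuousAt H ((a : ℂ) + y * I) := hd _ (by simp)
    exact ContinuousAt.comp (f := fun y : ℝ => (a : ℂ) + y * I) h1 (by fun_prop)
  refine (integrable_decay.const_mul B).mono' hc.aestronglyMeasurable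
    (Eventually.of_forall fun y => ?_)
  have := hB (a + y * I) (by simp)
  simpa using this

lemma contour_shift {H : ℂ → ℂ} {a b B : ℝ} (hab : a ≤ b)
    (hd : ∀ s : ℂ, a ≤ s.re → s.re ≤ b → DifferentiableAt ℂ H s)
    (hB : ∀ s : ℂ, a ≤ s.re → s.re ≤ b → ‖H s‖ ≤ B * (1 + |s.im|) ^ (-(3 / 2 : ℝ))) :
    ∫ y : ℝ, H (a + y * I) = ∫ y : ℝ, H (b + y * I) := by
  have ia : Integrable (fun y : ℝ => H (a + y * I)) :=
    vertical_integrable (fun s hs => (hd s hs.ge (hs.le.trans hab)).continuousAt)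
      (fun s hs => hB s hs.ge (hs.le.trans hab))
  have ib : Integrable (fun y : ℝ => H (b + y * I)) :=
    vertical_integrable (fun s hs => (hd s (hab.trans hs.ge) hs.le).continuousAt)
      (fun s hs => hB s (hab.trans hs.ge) hs.le)
  -- rectangles
  have hrect : ∀ T : ℝ, 0 < T →
      (∫ x in a..b, H (x + (-T : ℝ) * I)) - (∫ x in a..b, H (x + (T : ℝ) * I)) +
        I • (∫ y in (-T)..T, H (b + y * I)) -
        I • (∫ y in (-T)..T, H (a + y * I)) = 0 := by
    intro T hT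
    have := Complex.integral_boundary_rect_eq_zero_of_differentiableOn H ⟨a, -T⟩ ⟨b, T⟩ ?_
    · simpa using this
    · intro s hs
      rw [Complex.mem_reProdIm] at hs
      simp only at hs
      rw [uIcc_of_le hab] at hs
      exact (hd s hs.1.1 hs.1.2).differentiableWithinAt
  have hB0 : 0 ≤ B := by
    have := (norm_nonneg _).trans (hB a (by simp) (by simpa using hab))
    simpa using this
  have hhor : ∀ T : ℝ, ‖∫ x in a..b, H (x + (T : ℝ) * I)‖ ≤
      B * (1 + |T|) ^ (-(3 / 2 : ℝ)) * |b - a| := by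
    intro T
    refine intervalIntegral.norm_integral_le_of_norm_le_const fun x hx => ?_
    rw [uIoc_of_le hab] at hx
    have := hB (x + (T : ℝ) * I) (by simpa using hx.1.le) (by simpa using hx.2)
    simpa using this
  have hlim0 : Tendsto (fun T : ℝ => B * (1 + |T|) ^ (-(3 / 2 : ℝ)) * |b - a|) atTop (𝓝 0) := by
    have h1 : Tendsto (fun T : ℝ => (1 + |T|)) atTop atTop :=
      tendsto_atTop_add_const_left _ _ tendsto_abs_atTop_atTop
    have h2 := (tendsto_rpow_neg_atTop (y := 3 / 2) (by norm_num)).comp h1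
    have h3 := (h2.const_mul B).mul_const |b - a|
    simpa using h3
  have hl1 : Tendsto (fun T : ℝ => ∫ x in a..b, H (x + (T : ℝ) * I)) atTop (𝓝 0) :=
    squeeze_zero_norm hhor hlim0
  have hl2 : Tendsto (fun T : ℝ => ∫ x in a..b, H (x + (-T : ℝ) * I)) atTop (𝓝 0) := by
    refine squeeze_zero_norm (a := fun T : ℝ => B * (1 + |T|) ^ (-(3 / 2 : ℝ)) * |b - a|) ?_ hlim0
    intro T
    have := hhor (-T)
    rw [abs_neg] at this
    exact this
  have hl3 := intervalIntegral_tendsto_integral ib tendsto_neg_atTop_atBot tendsto_id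
  have hl4 := intervalIntegral_tendsto_integral ia tendsto_neg_atTop_atBot tendsto_id
  have hfin := ((hl2.sub hl1).add (hl3.const_smul I)).sub (hl4.const_smul I)
  have hzero : Tendsto (fun _ : ℝ => (0:ℂ)) atTop (𝓝 0) := tendsto_const_nhds
  have huniq := tendsto_nhds_unique (hfin.congr' ?_) hzero
  · rw [sub_zero, zero_add, ← smul_sub, smul_eq_mul] at huniq
    have := (mul_eq_zero.mp huniq).resolve_left Complex.I_ne_zero
    exact (sub_eq_zero.mp this).symm
  · filter_upwards [eventually_gt_atTop 0] with T hT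
    simpa using hrect T hT

lemma scale_integral (H : ℂ → ℂ) (a : ℝ) :
    ∫ ξ : ℝ, H (a + 2 * Real.pi * ξ * I) = (2 * Real.pi)⁻¹ * ∫ y : ℝ, H (a + y * I) := by
  have h := Measure.integral_comp_mul_left (fun y : ℝ => H (a + y * I)) (2 * Real.pi)
  rw [abs_of_pos (by positivity)] at h
  have h2 : (fun ξ : ℝ => H (a + 2 * Real.pi * ξ * I)) =
      fun ξ : ℝ => H (a + ((2 * Real.pi * ξ : ℝ) : ℂ) * I) := by
    ext ξ; push_cast; rfl
  rw [h2, h, Complex.real_smul]

/-! ### The transform of a test function -/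

/-- The transform of a test function. -/
noncomputable def Psi (φ : ℝ → ℂ) (s : ℂ) : ℂ := ∫ u : ℝ, φ u * exp (s * u)

lemma norm_exp_mul (s : ℂ) (u : ℝ) : ‖exp (s * u)‖ = Real.exp (s.re * u) := by
  rw [Complex.norm_exp]; congr 1; simp

lemma int_aux {φ : ℝ → ℂ} (hc : Continuous φ) (hs : HasCompactSupport φ) {g : ℝ → ℂ}
    (hg : Continuous g) : Integrable (fun u => φ u * g u) :=
  (hc.mul hg).integrable_of_hasCompactSupport hs.mul_right

lemma int_aux' {φ : ℝ → ℂ} (hc : Continuous φ) (hs : HasCompactSupport φ) {g : ℝ → ℝ}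
    (hg : Continuous g) : Integrable (fun u => ‖φ u‖ * g u) :=
  (hc.norm.mul hg).integrable_of_hasCompactSupport hs.norm.mul_right

lemma Psi_bound {φ : ℝ → ℂ} (hc : Continuous φ) (hs : HasCompactSupport φ) (X : ℝ) :
    ∃ C : ℝ, 0 ≤ C ∧ ∀ s : ℂ, |s.re| ≤ X → ‖Psi φ s‖ ≤ C := by
  refine ⟨∫ u : ℝ, ‖φ u‖ * Real.exp (X * |u|), integral_nonneg fun u => by positivity,
    fun s hsX => ?_⟩
  refine norm_integral_le_of_norm_le (int_aux' hc hs (by fun_prop)) (Eventually.of_forall fun u => ?_)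
  rw [norm_mul, norm_exp_mul]
  refine mul_le_mul_of_nonneg_left (Real.exp_le_exp.2 ?_) (norm_nonneg _)
  calc s.re * u ≤ |s.re * u| := le_abs_self _
    _ = |s.re| * |u| := abs_mul _ _
    _ ≤ X * |u| := mul_le_mul_of_nonneg_right hsX (abs_nonneg _)

lemma Psi_deriv {φ : ℝ → ℂ} (hc : ContDiff ℝ 1 φ) (hs : HasCompactSupport φ) (s : ℂ) :
    Psi (deriv φ) s = -(s * Psi φ s) := by
  have hd : ∀ u, HasDerivAt φ (deriv φ u) u := fun u =>
    (hc.differentiable (by norm_num)).differentiableAt.hasDerivAt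
  have he : ∀ u : ℝ, HasDerivAt (fun u : ℝ => exp (s * u)) (s * exp (s * u)) u := by
    intro u
    have h1 : HasDerivAt (fun u : ℝ => s * (u : ℂ)) s u := by
      have := (Complex.ofRealCLM.hasDerivAt (x := u)).const_mul s
      simpa using this
    have h2 := h1.cexp
    rwa [mul_comm] at h2
  have hcd : Continuous (deriv φ) := hc.continuous_deriv (by norm_num)
  have hsd : HasCompactSupport (deriv φ) := hs.deriv
  have h := integral_mul_deriv_eq_deriv_mul_of_integrable (u := φ) (u' := deriv φ)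
    (v := fun u : ℝ => exp (s * u)) (v' := fun u : ℝ => s * exp (s * u))
    (fun u _ => hd u) (fun u _ => he u)
    (int_aux hc.continuous hs (by fun_prop)) (int_aux hcd hsd (by fun_prop))
    (int_aux hc.continuous hs (by fun_prop))
  unfold Psi
  rw [← integral_const_mul]
  rw [← neg_eq_iff_eq_neg, ← h]
  refine integral_congr_ae (Eventually.of_forall fun u => ?_)
  simp only
  ring

lemma Psi_decay {φ : ℝ → ℂ} (hc : ContDiff ℝ ∞ φ) (hs : HasCompactSupport φ) (X : ℝ) :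
    ∃ C : ℝ, 0 ≤ C ∧ ∀ s : ℂ, |s.re| ≤ X → ‖Psi φ s‖ ≤ C * (1 + |s.im|) ^ (-(3 / 2 : ℝ)) := by
  obtain ⟨C0, hC0, h0⟩ := Psi_bound hc.continuous hs X
  have hc1 : ContDiff ℝ ∞ (deriv φ) := (contDiff_infty_iff_deriv.1 hc).2
  have hc2 : ContDiff ℝ ∞ (deriv (deriv φ)) := (contDiff_infty_iff_deriv.1 hc1).2
  obtain ⟨C2, hC2, h2⟩ := Psi_bound hc2.continuous hs.deriv.deriv X
  refine ⟨2 * C0 + 2 * C2, by positivity, fun s hsX => ?_⟩
  have e1 : Psi (deriv (deriv φ)) s = s ^ 2 * Psi φ s := by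
    rw [Psi_deriv (hc1.of_le (by exact_mod_cast le_top)) hs.deriv,
      Psi_deriv (hc.of_le (by exact_mod_cast le_top)) hs]
    ring
  have e2 := h2 s hsX
  rw [e1, norm_mul, norm_pow] at e2
  have e3 := h0 s hsX
  have him : |s.im| ≤ ‖s‖ := Complex.abs_im_le_norm s
  have h1 : (1 + |s.im|) ^ (3 / 2 : ℝ) ≤ (1 + |s.im|) ^ (2 : ℝ) :=
    Real.rpow_le_rpow_of_exponent_le (by linarith [abs_nonneg s.im]) (by norm_num)
  rw [Real.rpow_two] at h1
  have h4 : (1 + |s.im|) ^ 2 ≤ 2 + 2 * ‖s‖ ^ 2 := by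
    have h5 : |s.im| ^ 2 ≤ ‖s‖ ^ 2 := pow_le_pow_left₀ (abs_nonneg _) him 2
    nlinarith [sq_nonneg (1 - |s.im|)]
  rw [Real.rpow_neg (by positivity), ← div_eq_mul_inv, le_div_iff₀ (by positivity)]
  calc ‖Psi φ s‖ * (1 + |s.im|) ^ (3 / 2 : ℝ) ≤ ‖Psi φ s‖ * (2 + 2 * ‖s‖ ^ 2) :=
        mul_le_mul_of_nonneg_left (h1.trans h4) (norm_nonneg _)
    _ = 2 * ‖Psi φ s‖ + 2 * (‖s‖ ^ 2 * ‖Psi φ s‖) := by ring
    _ ≤ 2 * C0 + 2 * C2 := by linarith

lemma Psi_diff {φ : ℝ → ℂ} (hc : Continuous φ) (hs : HasCompactSupport φ) (s : ℂ) :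
    DifferentiableAt ℂ (Psi φ) s := by
  have key := hasDerivAt_integral_of_dominated_loc_of_deriv_le (μ := volume) (𝕜 := ℂ)
    (F := fun (z : ℂ) (u : ℝ) => φ u * exp (z * u))
    (F' := fun (z : ℂ) (u : ℝ) => φ u * ((u : ℂ) * exp (z * u)))
    (x₀ := s) (s := Metric.ball s 1)
    (bound := fun u : ℝ => ‖φ u‖ * (|u| * Real.exp ((|s.re| + 1) * |u|)))
    (Metric.ball_mem_nhds s one_pos)
    (Eventually.of_forall fun z => (int_aux hc hs (by fun_prop)).aestronglyMeasurable)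
    (int_aux hc hs (by fun_prop)) (int_aux hc hs (by fun_prop)).aestronglyMeasurable ?_
    (int_aux' hc hs (by fun_prop)) ?_
  · exact key.2.differentiableAt
  · refine Eventually.of_forall fun u z hz => ?_
    rw [norm_mul, norm_mul, norm_exp_mul, Complex.norm_real, Real.norm_eq_abs]
    refine mul_le_mul_of_nonneg_left (mul_le_mul_of_nonneg_left (Real.exp_le_exp.2 ?_)
      (abs_nonneg _)) (norm_nonneg _)
    have h1 : |z.re| ≤ |s.re| + 1 := by
      rw [Metric.mem_ball, dist_eq_norm] at hz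
      have h2 := (Complex.abs_re_le_norm (z - s)).trans hz.le
      rw [Complex.sub_re] at h2
      have h3 := abs_sub_abs_le_abs_sub z.re s.re
      linarith
    calc z.re * u ≤ |z.re * u| := le_abs_self _
      _ = |z.re| * |u| := abs_mul _ _
      _ ≤ (|s.re| + 1) * |u| := mul_le_mul_of_nonneg_right h1 (abs_nonneg _)
  · refine Eventually.of_forall fun u z _ => ?_
    have h1 : HasDerivAt (fun z : ℂ => z * u) (u : ℂ) z := by
      have := (hasDerivAt_id z).mul_const (u : ℂ)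
      rwa [one_mul] at this
    have h2 := (h1.cexp).const_mul (φ u)
    refine h2.congr_deriv ?_
    ring

/-! ### The two pairings -/

lemma flip (G : 𝓢(ℝ, ℂ)) (h : ℝ → ℂ) (h1 : Integrable h) :
    ∫ x, (𝓕 (G : ℝ → ℂ)) x • h x = ∫ x, (G x) • (𝓕 h) x := by
  simpa using! (VectorFourier.integral_fourierIntegral_smul_eq_flip (L := innerₗ ℝ)
        Real.continuous_fourierChar continuous_inner G.integrable h1)

lemma inv_eq_Psi (φ : ℝ → ℂ) (c : ℝ) (G : 𝓢(ℝ, ℂ)) (hG : ∀ u, G u = φ u * exp (c * u)) (ξ : ℝ) :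
    (𝓕⁻ G) ξ = Psi φ (c + 2 * Real.pi * ξ * I) := by
  rw [SchwartzMap.fourierInv_coe, Real.fourierInv_eq']
  unfold Psi
  refine integral_congr_ae (Eventually.of_forall fun u => ?_)
  simp only [smul_eq_mul]
  rw [hG, mul_comm, mul_assoc, ← exp_add]
  congr 2
  simp only [RCLike.inner_apply, conj_trivial]
  push_cast
  ring

lemma pair_q (h : ℝ → ℂ) (h2 : MemLp h 2) (G : 𝓢(ℝ, ℂ)) :
    ∫ x, (G x) • (𝓕⁻ (h2.toLp h : Lp (α := ℝ) ℂ 2) : Lp (α := ℝ) ℂ 2) x =
      ∫ x, (𝓕⁻ G) x • h x := by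
  rw [← Lp.toTemperedDistribution_apply, ← Lp.fourierInv_toTemperedDistribution_eq,
    TemperedDistribution.fourierInv_apply, Lp.toTemperedDistribution_apply]
  apply integral_congr_ae
  filter_upwards [h2.coeFn_toLp] with x hx
  rw [hx]

lemma pair_k (κ : ℝ → ℂ) (h1 : Integrable κ) (G : 𝓢(ℝ, ℂ)) :
    ∫ x, G x • κ x = ∫ x, (𝓕⁻ G) x • (𝓕 κ) x := by
  have h := flip (𝓕⁻ G) κ h1
  rw [← SchwartzMap.fourier_coe, FourierInvPair.fourier_fourierInv_eq] at h
  exact h

lemma fourier_eq (k : ℝ → ℂ) (c ξ : ℝ) :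
    𝓕 (fun u : ℝ => k u * exp (-(c * u))) ξ =
      ∫ u : ℝ, k u * exp (-(((c : ℂ) + 2 * Real.pi * ξ * I) * u)) := by
  rw [Real.fourier_real_eq_integral_exp_smul]
  refine integral_congr_ae (Eventually.of_forall fun u => ?_)
  simp only [smul_eq_mul]
  rw [mul_comm, mul_assoc, ← exp_add]
  congr 2
  push_cast
  ring

lemma enorm_sq (f : ℝ → ℂ) : eLpNorm f 2 volume = (∫⁻ x, ‖f x‖ₑ ^ 2) ^ (1 / 2 : ℝ) := by
  rw [eLpNorm_eq_lintegral_rpow_enorm_toReal (by norm_num) (by norm_num)]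
  simp

theorem strip {k : ℝ → ℂ} {H : ℂ → ℂ} {a δ : ℝ} (hδ : 0 < δ) (hδa : δ ≤ a + 1)
    (hk : Integrable fun u : ℝ => k u * exp (-(((a + 1 : ℝ) : ℂ) * u)))
    (hH : ∀ s : ℂ, a < s.re → H s = ∫ u : ℝ, k u * exp (-(s * u)))
    (hd : ∀ s : ℂ, 0 < s.re → DifferentiableAt ℂ H s)
    {B : ℝ} (hB : ∀ s : ℂ, δ ≤ s.re → s.re ≤ a + 1 → ‖H s‖ ≤ B)
    (hL : ∫⁻ t : ℝ, ‖H (δ + t * I)‖ₑ ^ 2 < ⊤) :
    ∫⁻ u : ℝ, ‖k u * exp (-(δ * u))‖ₑ ^ 2 ≤ ∫⁻ t : ℝ, ‖H (δ + t * I)‖ₑ ^ 2 := by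
  set b : ℝ := a + 1 with hb
  have hcont : Continuous (fun t : ℝ => H (δ + t * I)) := by
    rw [continuous_iff_continuousAt]
    intro y
    have h1 : ContinuousAt H ((δ : ℂ) + y * I) := (hd _ (by simpa using hδ)).continuousAt
    exact ContinuousAt.comp (f := fun y : ℝ => (δ : ℂ) + y * I) h1 (by fun_prop)
  set h : ℝ → ℂ := fun ξ => H (δ + 2 * Real.pi * ξ * I) with hh
  have hh' : ∀ ξ, h ξ = (fun t : ℝ => H (δ + t * I)) (2 * Real.pi * ξ) := by
    intro ξ; simp only [hh]; push_cast; rfl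
  have hhc : Continuous h := by
    have : h = (fun t : ℝ => H (δ + t * I)) ∘ (fun ξ => 2 * Real.pi * ξ) := by
      ext ξ; exact hh' ξ
    rw [this]
    exact hcont.comp (by fun_prop)
  have hlin : ∫⁻ ξ, ‖h ξ‖ₑ ^ 2 ≤ ∫⁻ t : ℝ, ‖H (δ + t * I)‖ₑ ^ 2 := by
    have h1 : ∫⁻ ξ, ‖h ξ‖ₑ ^ 2 = ∫⁻ t, ‖H (δ + t * I)‖ₑ ^ 2
        ∂(Measure.map (fun ξ : ℝ => 2 * Real.pi * ξ) volume) := by
      rw [lintegral_map (hcont.enorm.measurable.pow_const 2) (by fun_prop)]
      refine lintegral_congr fun ξ => ?_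
      rw [hh' ξ]
    rw [h1, Real.map_volume_mul_left (by positivity), lintegral_smul_measure]
    have h2 : ENNReal.ofReal |(2 * Real.pi)⁻¹| ≤ 1 := by
      rw [ENNReal.ofReal_le_one, abs_of_pos (by positivity)]
      apply inv_le_one_of_one_le₀
      nlinarith [Real.pi_gt_three]
    calc _ ≤ (1 : ℝ≥0∞) • ∫⁻ t : ℝ, ‖H (δ + t * I)‖ₑ ^ 2 := by
          simp only [smul_eq_mul]; gcongr
      _ = _ := one_smul _ _
  have hmem : MemLp h 2 := by
    refine ⟨hhc.aestronglyMeasurable, ?_⟩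
    rw [enorm_sq]
    exact ENNReal.rpow_lt_top_of_nonneg (by norm_num) (hlin.trans_lt hL).ne
  have hloc : LocallyIntegrable (fun u : ℝ => k u * exp (-(δ * u))) := by
    have h1 : (fun u : ℝ => k u * exp (-(δ * u))) =
        fun u : ℝ => (k u * exp (-((b : ℂ) * u))) * exp (((b - δ : ℝ) : ℂ) * u) := by
      ext u
      rw [mul_assoc, ← exp_add]
      congr 2
      push_cast
      ring
    rw [h1, ← locallyIntegrableOn_univ]
    refine MeasureTheory.LocallyIntegrableOn.mul_continuousOn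
      (locallyIntegrableOn_univ.2 hk.locallyIntegrable) ?_ isOpen_univ.isLocallyClosed
    exact Continuous.continuousOn (by fun_prop)
  have hq : (𝓕⁻ (hmem.toLp h : Lp (α := ℝ) ℂ 2) : Lp (α := ℝ) ℂ 2) =ᵐ[volume]
      fun u : ℝ => k u * exp (-(δ * u)) := by
    apply ae_eq_of_integral_contDiff_smul_eq
    · exact (Lp.memLp _).locallyIntegrable (by norm_num)
    · exact hloc
    · intro g g_smooth g_cpt
      have hg₁ : HasCompactSupport (Complex.ofRealCLM ∘ g) := g_cpt.comp_left rfl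
      have hg₂ : ContDiff ℝ ∞ (Complex.ofRealCLM ∘ g) := by fun_prop
      set φ : ℝ → ℂ := Complex.ofRealCLM ∘ g with hφ
      have hφu : ∀ u, φ u = (g u : ℂ) := fun u => rfl
      have hb₁ : HasCompactSupport (fun u : ℝ => φ u * exp (((b - δ : ℝ) : ℂ) * u)) :=
        hg₁.mul_right
      have hb₂ : ContDiff ℝ ∞ (fun u : ℝ => φ u * exp (((b - δ : ℝ) : ℂ) * u)) := by
        refine hg₂.mul ?_
        exact (contDiff_const.mul Complex.ofRealCLM.contDiff).cexp
      set G : 𝓢(ℝ, ℂ) := hg₁.toSchwartzMap hg₂ with hG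
      set Gb : 𝓢(ℝ, ℂ) := hb₁.toSchwartzMap hb₂ with hGb
      have hGu : ∀ u, G u = φ u := fun u => by rw [hG]; rfl
      have hGbu : ∀ u, Gb u = φ u * exp (((b - δ : ℝ) : ℂ) * u) := fun u => by rw [hGb]; rfl
      -- left side
      have L1 : ∫ x, g x • (𝓕⁻ (hmem.toLp h : Lp (α := ℝ) ℂ 2) : Lp (α := ℝ) ℂ 2) x =
          ∫ ξ : ℝ, Psi φ (2 * Real.pi * ξ * I) * H (δ + 2 * Real.pi * ξ * I) := by
        have e1 : ∫ x, g x • (𝓕⁻ (hmem.toLp h : Lp (α := ℝ) ℂ 2) : Lp (α := ℝ) ℂ 2) x =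
            ∫ x, G x • (𝓕⁻ (hmem.toLp h : Lp (α := ℝ) ℂ 2) : Lp (α := ℝ) ℂ 2) x := by
          refine integral_congr_ae (Eventually.of_forall fun u => ?_)
          simp only
          rw [hGu, hφu, Complex.real_smul, smul_eq_mul]
        rw [e1, pair_q]
        refine integral_congr_ae (Eventually.of_forall fun ξ => ?_)
        simp only
        rw [inv_eq_Psi φ 0 G (fun u => by rw [hGu]; simp) ξ, smul_eq_mul]
        simp only [hh, Complex.ofReal_zero, zero_add]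
      have L2 : ∫ x : ℝ, g x • (k x * exp (-(δ * x))) =
          ∫ ξ : ℝ, Psi φ (((b - δ : ℝ) : ℂ) + 2 * Real.pi * ξ * I) *
            H (b + 2 * Real.pi * ξ * I) := by
        have e1 : ∫ x : ℝ, g x • (k x * exp (-(δ * x))) =
            ∫ x : ℝ, Gb x • (k x * exp (-((b : ℂ) * x))) := by
          refine integral_congr_ae (Eventually.of_forall fun u => ?_)
          simp only
          rw [hGbu, hφu, Complex.real_smul, smul_eq_mul]
          have : exp (-((δ : ℂ) * u)) = exp (((b - δ : ℝ) : ℂ) * u) * exp (-((b : ℂ) * u)) := by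
            rw [← exp_add]; congr 1; push_cast; ring
          rw [this]; ring
        rw [e1, pair_k _ hk]
        refine integral_congr_ae (Eventually.of_forall fun ξ => ?_)
        simp only
        rw [inv_eq_Psi φ (b - δ) Gb hGbu ξ, smul_eq_mul, fourier_eq k b ξ]
        congr 1
        rw [hH]
        simp [hb]
      rw [L1, L2]
      obtain ⟨C, hC, hCb⟩ := Psi_decay hg₂ hg₁ (b - δ)
      have hB0 : 0 ≤ B := (norm_nonneg _).trans (hB δ (by simp) (by simpa using hδa))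
      have hcs := contour_shift (H := fun s => Psi φ (s - δ) * H s) (a := δ) (b := b)
        (B := C * B) hδa ?_ ?_
      · have s1 := scale_integral (fun s => Psi φ (s - δ) * H s) δ
        have s2 := scale_integral (fun s => Psi φ (s - δ) * H s) b
        rw [hcs, ← s2] at s1
        refine Eq.trans (integral_congr_ae (Eventually.of_forall fun ξ => ?_)) (s1.trans
          (integral_congr_ae (Eventually.of_forall fun ξ => ?_)))
        · simp only
          congr 2; ring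
        · simp only
          congr 2; push_cast; ring
      · intro s hs1 hs2
        have h1 : DifferentiableAt ℂ (fun s => Psi φ (s - δ)) s := by
          have h2 : DifferentiableAt ℂ (Psi φ) (s - δ) := Psi_diff hg₂.continuous hg₁ _
          exact DifferentiableAt.comp (f := fun s : ℂ => s - δ) s h2 (by fun_prop)
        exact h1.mul (hd s (by linarith))
      · intro s hs1 hs2
        have h1 := hCb (s - δ) (by
          rw [Complex.sub_re, Complex.ofReal_re, abs_of_nonneg (by linarith)]; linarith)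
        have h2 := hB s hs1 hs2
        have h3 : (s - (δ : ℂ)).im = s.im := by simp
        rw [h3] at h1
        rw [norm_mul]
        calc ‖Psi φ (s - δ)‖ * ‖H s‖ ≤ (C * (1 + |s.im|) ^ (-(3 / 2 : ℝ))) * B :=
              mul_le_mul h1 h2 (norm_nonneg _) (by positivity)
          _ = _ := by ring
  have hnorm : ‖(𝓕⁻ (hmem.toLp h : Lp (α := ℝ) ℂ 2) : Lp (α := ℝ) ℂ 2)‖ₑ =
      ‖(hmem.toLp h : Lp (α := ℝ) ℂ 2)‖ₑ := by
    have h1 : ‖(𝓕⁻ (hmem.toLp h : Lp (α := ℝ) ℂ 2) : Lp (α := ℝ) ℂ 2)‖ =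
        ‖(hmem.toLp h : Lp (α := ℝ) ℂ 2)‖ := by
      rw [← Lp.norm_fourier_eq, FourierInvPair.fourier_fourierInv_eq]
    rw [← ofReal_norm, ← ofReal_norm, h1]
  rw [Lp.enorm_def, Lp.enorm_def, eLpNorm_congr_ae hq, eLpNorm_congr_ae hmem.coeFn_toLp,
    enorm_sq, enorm_sq] at hnorm
  have hfin := ENNReal.rpow_left_injective (by norm_num) hnorm
  rw [hfin]
  exact hlin

end PW

open PW in
theorem paley_wiener {k : ℝ → ℂ} {H : ℂ → ℂ} {a δ₀ : ℝ} {K : ℝ≥0∞} (ha : 0 ≤ a) (hδ₀ : 0 < δ₀)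
    (hk1 : ∀ x : ℝ, a < x → Integrable fun u : ℝ => k u * exp (-(x * u)))
    (hk2 : ∀ x : ℝ, a < x → MemLp (fun u : ℝ => k u * exp (-(x * u))) 2)
    (hH : ∀ s : ℂ, a < s.re → H s = ∫ u : ℝ, k u * exp (-(s * u)))
    (hd : ∀ s : ℂ, 0 < s.re → DifferentiableAt ℂ H s)
    (hb : ∀ δ : ℝ, 0 < δ → ∃ B : ℝ, ∀ s : ℂ, δ ≤ s.re → s.re ≤ a + 1 → ‖H s‖ ≤ B)
    (hK : ∀ δ : ℝ, 0 < δ → δ < δ₀ → ∫⁻ t : ℝ, ‖H (δ + t * I)‖ₑ ^ 2 ≤ K) :
    ∫⁻ u : ℝ, ‖k u‖ₑ ^ 2 ≤ K := by
  rcases eq_or_ne K ⊤ with rfl | hKt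
  · exact le_top
  have hk := hk1 (a + 1) (by linarith)
  set e : ℕ → ℝ := fun n => min δ₀ 1 / (n + 2) with he
  have hm : 0 < min δ₀ 1 := lt_min hδ₀ one_pos
  have he0 : ∀ n, 0 < e n := fun n => by simp only [he]; positivity
  have hlt : ∀ n, e n < min δ₀ 1 := fun n => by
    simp only [he]
    rw [div_lt_iff₀ (by positivity)]
    have : (0 : ℝ) ≤ n := n.cast_nonneg
    nlinarith
  have het : Tendsto e atTop (𝓝 0) := by
    simp only [he]
    have h1 : Tendsto (fun n : ℕ => ((n : ℝ) + 2)) atTop atTop :=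
      tendsto_atTop_add_const_right _ _ tendsto_natCast_atTop_atTop
    exact h1.const_div_atTop _
  have hstep : ∀ n, ∫⁻ u : ℝ, ‖k u * exp (-((e n : ℂ) * u))‖ₑ ^ 2 ≤ K := by
    intro n
    have h1 := hK (e n) (he0 n) ((hlt n).trans_le (min_le_left _ _))
    obtain ⟨B, hB⟩ := hb (e n) (he0 n)
    exact (strip (he0 n) (by linarith [hlt n, min_le_right δ₀ (1:ℝ)]) hk hH hd hB
      (h1.trans_lt (lt_top_iff_ne_top.2 hKt))).trans h1
  have hkm : AEStronglyMeasurable k volume := by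
    have h1 : k = fun u : ℝ => (k u * exp (-(((a + 1 : ℝ) : ℂ) * u))) *
        exp (((a + 1 : ℝ) : ℂ) * u) := by
      ext u
      rw [mul_assoc, ← exp_add]
      simp
    rw [h1]
    exact hk.aestronglyMeasurable.mul (Continuous.aestronglyMeasurable (by fun_prop))
  have hlim : ∀ u : ℝ, Tendsto (fun n => ‖k u * exp (-((e n : ℂ) * u))‖ₑ ^ 2) atTop
      (𝓝 (‖k u‖ₑ ^ 2)) := by
    intro u
    have h1 : Tendsto (fun n => k u * exp (-((e n : ℂ) * u))) atTop (𝓝 (k u)) := by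
      have h2 : Tendsto (fun n => (e n : ℂ)) atTop (𝓝 ((0 : ℝ) : ℂ)) :=
        (Complex.continuous_ofReal.tendsto 0).comp het
      have h3 : Continuous (fun z : ℂ => k u * exp (-(z * u))) := by fun_prop
      have h4 := (h3.tendsto ((0 : ℝ) : ℂ)).comp h2
      simpa [Function.comp_def] using h4
    exact ((ENNReal.continuous_pow 2).tendsto _).comp ((continuous_enorm.tendsto _).comp h1)
  calc ∫⁻ u : ℝ, ‖k u‖ₑ ^ 2
      = ∫⁻ u : ℝ, liminf (fun n => ‖k u * exp (-((e n : ℂ) * u))‖ₑ ^ 2) atTop :=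
        lintegral_congr fun u => (hlim u).liminf_eq.symm
    _ ≤ liminf (fun n => ∫⁻ u : ℝ, ‖k u * exp (-((e n : ℂ) * u))‖ₑ ^ 2) atTop := by
        refine lintegral_liminf_le' fun n => ?_
        exact ((hkm.mul (Continuous.aestronglyMeasurable (by fun_prop))).enorm).pow_const 2
    _ ≤ K := by
        refine Filter.liminf_le_of_frequently_le' ?_
        exact Frequently.of_forall hstep

end Pool.Agent.TH270.MS
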